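import Pool.Agent.TH749.FS.Mul
import Pool.Agent.W601.Curve.Step

/-!
Counting conditions: the dimension of a series of fat points from separation of jets, and an
upper bound for the multiplicities of a member.
-/

set_option autoImplicit false

namespace Pool.Agent.TH749.FS

open MvPolynomial Pool.Agent.W607 Pool.Agent.W601.Curve

variable {N n : ℕ}

theorem exists_form_of_sep {P : Ideal (MvPolynomial (Fin (N + 1)) ℂ)}
    {ℓ : MvPolynomial (Fin (N + 1)) ℂ} {E s : ℕ} {w : Fin n → Fin (N + 1) → ℂ}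
    (hsep : Sep P ℓ E s w) (K : Fin n → Ideal (MvPolynomial (Fin (N + 1)) ℂ))
    (hK : ∀ q, P ⊔ Ideal.span {ℓ - 1} ⊔ (mw (w q)) ^ s ≤ K q)
    (y : ∀ q, MvPolynomial (Fin (N + 1)) ℂ ⧸ K q) :
    ∃ F : MvPolynomial (Fin (N + 1)) ℂ, F.IsHomogeneous E ∧
      ∀ q, Ideal.Quotient.mk (K q) F = y q := by
  classical
  choose f hf using fun q => Ideal.Quotient.mk_surjective (y q)
  choose F hF hF1 hF2 using fun q => hsep q (f q)
  refine ⟨∑ q, F q, IsHomogeneous.sum _ _ _ fun q _ => hF q, fun q => ?_⟩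
  rw [map_sum, Finset.sum_eq_single q]
  · rw [← hf q, Ideal.Quotient.eq]
    exact hK q (hF1 q)
  · intro q' _ hq'
    rw [Ideal.Quotient.eq_zero_iff_mem]
    exact hK q (hF2 q' q (Ne.symm hq'))
  · intro h
    exact absurd (Finset.mem_univ q) h

/-- the space of forms of degree `e` in all the ideals `K q`, modulo `P` -/
noncomputable def ser (P : Ideal (MvPolynomial (Fin (N + 1)) ℂ))
    (K : Fin n → Ideal (MvPolynomial (Fin (N + 1)) ℂ)) (e : ℕ) :
    Submodule ℂ (MvPolynomial (Fin (N + 1)) ℂ ⧸ P) :=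
  (homogeneousSubmodule (Fin (N + 1)) ℂ e ⊓ ⨅ q, (K q).restrictScalars ℂ).map
    (Ideal.Quotient.mkₐ ℂ P).toLinearMap

/-- the evaluation map on all the quotients -/
noncomputable def evK (P : Ideal (MvPolynomial (Fin (N + 1)) ℂ))
    (K : Fin n → Ideal (MvPolynomial (Fin (N + 1)) ℂ)) (hPK : ∀ q, P ≤ K q) :
    (MvPolynomial (Fin (N + 1)) ℂ ⧸ P) →ₗ[ℂ] (∀ q, MvPolynomial (Fin (N + 1)) ℂ ⧸ K q) :=
  LinearMap.pi (fun q => (Ideal.Quotient.factorₐ ℂ (hPK q)).toLinearMap)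

theorem ser_eq (P : Ideal (MvPolynomial (Fin (N + 1)) ℂ))
    (K : Fin n → Ideal (MvPolynomial (Fin (N + 1)) ℂ)) (hPK : ∀ q, P ≤ K q) (e : ℕ) :
    ser P K e = Hp P e ⊓ LinearMap.ker (evK P K hPK) := by
  ext x
  constructor
  · rintro ⟨f, ⟨hf1, hf2⟩, rfl⟩
    refine ⟨⟨f, hf1, rfl⟩, ?_⟩
    rw [SetLike.mem_coe, LinearMap.mem_ker]
    funext q
    show Ideal.Quotient.mk (K q) f = 0
    rw [Ideal.Quotient.eq_zero_iff_mem]
    have := (Submodule.mem_iInf _).1 hf2 q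
    exact this
  · rintro ⟨⟨f, hf1, rfl⟩, hf2⟩
    refine ⟨f, ⟨hf1, ?_⟩, rfl⟩
    rw [SetLike.mem_coe, Submodule.mem_iInf]
    intro q
    rw [SetLike.mem_coe, LinearMap.mem_ker] at hf2
    have h1 := congrFun hf2 q
    have h2 : Ideal.Quotient.mk (K q) f = 0 := h1
    exact Ideal.Quotient.eq_zero_iff_mem.1 h2

theorem finrank_ser (P : Ideal (MvPolynomial (Fin (N + 1)) ℂ))
    (K : Fin n → Ideal (MvPolynomial (Fin (N + 1)) ℂ)) (hPK : ∀ q, P ≤ K q) (e : ℕ) :
    Module.finrank ℂ (LinearMap.range ((evK P K hPK).domRestrict (Hp P e))) +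
      Module.finrank ℂ (ser P K e) = hilb P e := by
  have hfin := finite_Hp P e
  have e1 := LinearMap.finrank_range_add_finrank_ker ((evK P K hPK).domRestrict (Hp P e))
  rw [hilb_eq, ← e1]
  congr 1
  have h1 : LinearMap.ker ((evK P K hPK).domRestrict (Hp P e)) =
      (ser P K e).comap (Hp P e).subtype := by
    rw [ser_eq P K hPK]
    ext x
    rw [LinearMap.mem_ker, Submodule.mem_comap, Submodule.mem_inf]
    constructor
    · intro h
      exact ⟨x.2, LinearMap.mem_ker.2 h⟩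
    · intro h
      exact LinearMap.mem_ker.1 h.2
  have h2 : ser P K e ≤ Hp P e := by
    rw [ser_eq P K hPK]
    exact inf_le_left
  rw [h1]
  exact (LinearEquiv.finrank_eq (Submodule.comapSubtypeEquivOfLe h2)).symm

theorem hilb_le (P : Ideal (MvPolynomial (Fin (N + 1)) ℂ))
    (K : Fin n → Ideal (MvPolynomial (Fin (N + 1)) ℂ)) (hPK : ∀ q, P ≤ K q)
    (hfin : ∀ q, Module.Finite ℂ (MvPolynomial (Fin (N + 1)) ℂ ⧸ K q)) (e : ℕ) :
    hilb P e ≤ (∑ q, Module.finrank ℂ (MvPolynomial (Fin (N + 1)) ℂ ⧸ K q)) +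
      Module.finrank ℂ (ser P K e) := by
  rw [← finrank_ser P K hPK e, ← Module.finrank_pi_fintype]
  exact Nat.add_le_add_right (Submodule.finrank_le _) _

theorem finrank_ser_of_sep {P : Ideal (MvPolynomial (Fin (N + 1)) ℂ)}
    {ℓ : MvPolynomial (Fin (N + 1)) ℂ} {E s : ℕ} {w : Fin n → Fin (N + 1) → ℂ}
    (hsep : Sep P ℓ E s w) (K : Fin n → Ideal (MvPolynomial (Fin (N + 1)) ℂ))
    (hfin : ∀ q, Module.Finite ℂ (MvPolynomial (Fin (N + 1)) ℂ ⧸ K q))
    (hK : ∀ q, P ⊔ Ideal.span {ℓ - 1} ⊔ (mw (w q)) ^ s ≤ K q) :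
    (∑ q, Module.finrank ℂ (MvPolynomial (Fin (N + 1)) ℂ ⧸ K q)) +
      Module.finrank ℂ (ser P K E) = hilb P E := by
  have hPK : ∀ q, P ≤ K q := fun q => (le_sup_left.trans le_sup_left).trans (hK q)
  rw [← finrank_ser P K hPK E, ← Module.finrank_pi_fintype]
  congr 1
  have h1 : LinearMap.range ((evK P K hPK).domRestrict (Hp P E)) = ⊤ := by
    rw [LinearMap.range_eq_top]
    intro y
    obtain ⟨F, hF, hF1⟩ := exists_form_of_sep hsep K hK y
    refine ⟨⟨Ideal.Quotient.mk P F, ⟨F, (mem_homogeneousSubmodule _ _).2 hF, rfl⟩⟩, ?_⟩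
    funext q
    exact hF1 q
  rw [h1, finrank_top]

/-- counting conditions on the multiples of a member -/
theorem count {P : Ideal (MvPolynomial (Fin (N + 1)) ℂ)} (hP : P.IsPrime)
    {ℓ : MvPolynomial (Fin (N + 1)) ℂ} {E s : ℕ} {w : Fin n → Fin (N + 1) → ℂ}
    (hsep : Sep P ℓ E s w) {e : ℕ} (heE : e ≤ E) {m : Fin n → ℕ} (hms : ∀ q, m q ≤ s)
    {G : MvPolynomial (Fin (N + 1)) ℂ} (hG : G.IsHomogeneous e) (hGP : G ∉ P)
    (hGm : ∀ q, G ∈ P ⊔ Ideal.span {ℓ - 1} ⊔ (mw (w q)) ^ (m q)) :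
    (∑ q, Module.finrank ℂ (MvPolynomial (Fin (N + 1)) ℂ ⧸
      (P ⊔ Ideal.span {ℓ - 1} ⊔ (mw (w q)) ^ s))) + hilb P (E - e) ≤
    (∑ q, Module.finrank ℂ (MvPolynomial (Fin (N + 1)) ℂ ⧸
      (P ⊔ Ideal.span {ℓ - 1} ⊔ (mw (w q)) ^ (s - m q)))) + hilb P E := by
  classical
  set J : Ideal (MvPolynomial (Fin (N + 1)) ℂ) := P ⊔ Ideal.span {ℓ - 1} with hJ
  set K : Fin n → Ideal (MvPolynomial (Fin (N + 1)) ℂ) := fun q =>
    J ⊔ (mw (w q)) ^ s ⊔ Ideal.span {G} with hKdef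
  have hPK : ∀ q, P ≤ K q := fun q => (le_sup_left.trans le_sup_left).trans le_sup_left
  have hfinK : ∀ q, Module.Finite ℂ (MvPolynomial (Fin (N + 1)) ℂ ⧸ K q) := fun q =>
    finite_quot_of_le (w q) s (K q) (le_sup_right.trans le_sup_left)
  have h1 := finrank_ser_of_sep hsep K hfinK (fun q => le_sup_left)
  -- multiplication by `G`
  have hfin1 := finite_Hp P E
  have hfin2 := finite_Hp P (E - e)
  have hser : ser P K E ≤ Hp P E := by
    rw [ser_eq P K hPK]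
    exact inf_le_left
  have hfin3 : Module.Finite ℂ (ser P K E) := Submodule.finiteDimensional_of_le hser
  have hm1 : ∀ x : Hp P (E - e),
      ((LinearMap.mulLeft ℂ (Ideal.Quotient.mk P G)).domRestrict (Hp P (E - e))) x ∈
      ser P K E := by
    rintro ⟨x, f, hf, rfl⟩
    refine ⟨G * f, ⟨?_, ?_⟩, ?_⟩
    · have h2 := hG.mul ((mem_homogeneousSubmodule _ _).1 hf)
      have h3 : e + (E - e) = E := by omega
      rw [h3] at h2
      exact (mem_homogeneousSubmodule _ _).2 h2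
    · rw [SetLike.mem_coe, Submodule.mem_iInf]
      intro q
      show G * f ∈ K q
      exact Ideal.mul_mem_right _ _ (Ideal.mem_sup_right (Ideal.mem_span_singleton_self _))
    · show Ideal.Quotient.mk P (G * f) = Ideal.Quotient.mk P G * Ideal.Quotient.mk P f
      rw [map_mul]
  let ν : Hp P (E - e) →ₗ[ℂ] ser P K E :=
    LinearMap.codRestrict (ser P K E)
      ((LinearMap.mulLeft ℂ (Ideal.Quotient.mk P G)).domRestrict (Hp P (E - e))) hm1
  have hνinj : Function.Injective ν := by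
    intro x y hxy
    have h2 : (Ideal.Quotient.mk P G) * (x : MvPolynomial (Fin (N + 1)) ℂ ⧸ P) =
        (Ideal.Quotient.mk P G) * (y : MvPolynomial (Fin (N + 1)) ℂ ⧸ P) :=
      congrArg (fun z : ser P K E => (z : MvPolynomial (Fin (N + 1)) ℂ ⧸ P)) hxy
    have hne : (Ideal.Quotient.mk P G) ≠ 0 := fun h0 => hGP (Ideal.Quotient.eq_zero_iff_mem.1 h0)
    have : IsDomain (MvPolynomial (Fin (N + 1)) ℂ ⧸ P) := Ideal.Quotient.isDomain P
    exact Subtype.ext (mul_left_cancel₀ hne h2)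
  have e2 : Module.finrank ℂ (Hp P (E - e)) ≤ Module.finrank ℂ (ser P K E) :=
    LinearMap.finrank_le_finrank_of_injective hνinj
  rw [← hilb_eq] at e2
  have h4 : ∀ q, Module.finrank ℂ (MvPolynomial (Fin (N + 1)) ℂ ⧸ (J ⊔ (mw (w q)) ^ s)) ≤
      Module.finrank ℂ (MvPolynomial (Fin (N + 1)) ℂ ⧸ (J ⊔ (mw (w q)) ^ (s - m q))) +
      Module.finrank ℂ (MvPolynomial (Fin (N + 1)) ℂ ⧸ K q) := by
    intro q
    refine finrank_le_add G (fun x hx => ?_) (finite_quot_of_le (w q) (s - m q) _ le_sup_right)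
      (finite_quot_of_le (w q) s _ le_sup_right)
    have h5 := mul_mem_sup (hGm q) hx
    have h6 : m q + (s - m q) = s := by have := hms q; omega
    rwa [h6] at h5
  have h5 := Finset.sum_le_sum fun q (_ : q ∈ Finset.univ) => h4 q
  rw [Finset.sum_add_distrib] at h5
  omega

end Pool.Agent.TH749.FS
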