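import Pool.Agent.W601.Curve.Step

/-!
The Hilbert function of a surface of degree `d` in `P³`, and its ideal.
-/

set_option autoImplicit false

namespace Pool.Agent.TH749.FS

open MvPolynomial Pool.Agent.W607 Pool.Agent.W601.Curve Filter Topology

theorem comp_mul {σ : Type*} {d : ℕ} {F : MvPolynomial σ ℂ} (hF : F.IsHomogeneous d)
    (h : MvPolynomial σ ℂ) (t : ℕ) :
    homogeneousComponent t (F * h) =
      if d ≤ t then F * homogeneousComponent (t - d) h else 0 := by
  have h1 : F * h = ∑ j ∈ Finset.range (h.totalDegree + 1), F * homogeneousComponent j h := by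
    rw [← Finset.mul_sum, sum_homogeneousComponent]
  conv_lhs => rw [h1]
  rw [map_sum]
  have h2 : ∀ j, homogeneousComponent t (F * homogeneousComponent j h) =
      if d + j = t then F * homogeneousComponent j h else 0 := by
    intro j
    have h3 : F * homogeneousComponent j h ∈ homogeneousSubmodule σ ℂ (d + j) :=
      (mem_homogeneousSubmodule _ _).2 (hF.mul (homogeneousComponent_isHomogeneous j h))
    rw [homogeneousComponent_of_mem h3]
    simp only [eq_comm]
  simp only [h2]
  split_ifs with hd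
  · rcases Nat.lt_or_ge h.totalDegree (t - d) with h3 | h3
    · rw [homogeneousComponent_eq_zero _ _ h3, mul_zero]
      refine Finset.sum_eq_zero fun j hj => ?_
      rw [if_neg]
      have := Finset.mem_range.1 hj
      omega
    · rw [Finset.sum_eq_single (t - d)]
      · rw [if_pos (by omega)]
      · intro j _ hj
        rw [if_neg (by omega)]
      · intro h4
        exact absurd (Finset.mem_range.2 (by omega)) h4
  · refine Finset.sum_eq_zero fun j _ => ?_
    rw [if_neg (by omega)]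

theorem hmg_span {N d : ℕ} {F : MvPolynomial (Fin (N + 1)) ℂ} (hF : F.IsHomogeneous d) :
    Hmg (Ideal.span {F}) := by
  intro f hf t
  obtain ⟨h, rfl⟩ := Ideal.mem_span_singleton'.1 hf
  rw [mul_comm, comp_mul hF]
  split_ifs
  · exact Ideal.mul_mem_right _ _ (Ideal.mem_span_singleton_self _)
  · exact zero_mem _

theorem finrank_hom4 (e : ℕ) :
    Module.finrank ℂ (homogeneousSubmodule (Fin (3 + 1)) ℂ e) = (e + 3).choose 3 := by
  classical
  have h0 : homogeneousSubmodule (Fin (3 + 1)) ℂ e =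
      restrictSupport ℂ {α : Fin (3 + 1) →₀ ℕ | ∑ i, α i = e} := by
    ext f
    rw [mem_homogeneousSubmodule, mem_restrictSupport_iff]
    constructor
    · intro h α hα
      have h1 := h.degree_eq_sum_deg_support hα
      rw [Set.mem_ofPred_eq, h1]
      exact (Finset.sum_subset (Finset.subset_univ _) (fun i _ hi => by simpa using hi)).symm
    · intro h α hα
      have h1 : α ∈ f.support := by rwa [mem_support_iff]
      have h2 : ∑ i, α i = e := h h1
      rw [← h2, ← Finsupp.degree_eq_sum, Finsupp.degree_eq_weight_one]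
      rfl
  rw [h0]
  set S : Set (Fin (3 + 1) →₀ ℕ) := {α | ∑ i, α i = e} with hS
  let eq : S ≃ ((Finset.univ : Finset (Fin (3 + 1))).finsuppAntidiag e) :=
    Equiv.subtypeEquivRight fun α => by
      rw [Finset.mem_finsuppAntidiag]
      simp only [Finset.subset_univ, and_true]
      exact Iff.rfl
  let B := (MvPolynomial.basisRestrictSupport ℂ S).reindex eq
  rw [Module.finrank_eq_card_basis B, Fintype.card_coe,
    Finset.card_finsuppAntidiag_nat_eq_choose, Finset.card_univ, Fintype.card_fin]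
  have h1 : 3 + 1 + e - 1 = 3 + e := by omega
  rw [h1, ← Nat.choose_symm_add, add_comm]

/-- **The Hilbert function of a surface in `P³`** -/
theorem hilb_span {d : ℕ} {F : MvPolynomial (Fin (3 + 1)) ℂ} (hF : F.IsHomogeneous d)
    (hF0 : F ≠ 0) (t : ℕ) :
    hilb (Ideal.span {F}) t + (t + 3 - d).choose 3 = (t + 3).choose 3 := by
  classical
  have hfin := finite_homog (N := 3) t
  let S := homogeneousSubmodule (Fin (3 + 1)) ℂ t
  let π : MvPolynomial (Fin (3 + 1)) ℂ →ₗ[ℂ] (MvPolynomial (Fin (3 + 1)) ℂ ⧸ Ideal.span {F}) :=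
    (Ideal.Quotient.mkₐ ℂ (Ideal.span {F})).toLinearMap
  let Φ : S →ₗ[ℂ] (MvPolynomial (Fin (3 + 1)) ℂ ⧸ Ideal.span {F}) := π.domRestrict S
  have e1 := LinearMap.finrank_range_add_finrank_ker Φ
  have e2 : LinearMap.range Φ = S.map π := by
    rw [LinearMap.range_domRestrict]
  have e3 : Module.finrank ℂ (S.map π) = hilb (Ideal.span {F}) t := rfl
  rw [e2, e3, finrank_hom4] at e1
  rw [← e1]
  congr 1
  have hker : ∀ g : S, g ∈ LinearMap.ker Φ ↔ F ∣ (g : MvPolynomial (Fin (3 + 1)) ℂ) := by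
    intro g
    rw [LinearMap.mem_ker]
    show Ideal.Quotient.mk (Ideal.span {F}) (g : MvPolynomial (Fin (3 + 1)) ℂ) = 0 ↔ _
    rw [Ideal.Quotient.eq_zero_iff_mem, Ideal.mem_span_singleton]
  rcases Nat.lt_or_ge t d with htd | htd
  · rw [Nat.choose_eq_zero_of_lt (by omega)]
    have h1 : LinearMap.ker Φ = ⊥ := by
      rw [eq_bot_iff]
      intro g hg
      obtain ⟨h, hh⟩ := (hker g).1 hg
      rw [Submodule.mem_bot]
      apply Subtype.ext
      have h2 := comp_mul hF h t
      rw [if_neg (by omega), ← hh, homogeneousComponent_eq_self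
        ((mem_homogeneousSubmodule _ _).1 g.2)] at h2
      exact h2
    rw [h1, finrank_bot]
  · have h1 : t + 3 - d = (t - d) + 3 := by omega
    rw [h1, ← finrank_hom4 (t - d)]
    have hfin2 := finite_homog (N := 3) (t - d)
    have hm : ∀ x : homogeneousSubmodule (Fin (3 + 1)) ℂ (t - d),
        F * (x : MvPolynomial (Fin (3 + 1)) ℂ) ∈ S := by
      intro x
      have h2 := hF.mul ((mem_homogeneousSubmodule _ _).1 x.2)
      have h3 : d + (t - d) = t := by omega
      rw [h3] at h2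
      exact (mem_homogeneousSubmodule _ _).2 h2
    let μ0 : homogeneousSubmodule (Fin (3 + 1)) ℂ (t - d) →ₗ[ℂ] S :=
      LinearMap.codRestrict S ((LinearMap.mulLeft ℂ F).domRestrict _) hm
    have hm1 : ∀ x, μ0 x ∈ LinearMap.ker Φ := fun x => (hker _).2 (Dvd.intro _ rfl)
    let μ : homogeneousSubmodule (Fin (3 + 1)) ℂ (t - d) →ₗ[ℂ] LinearMap.ker Φ :=
      LinearMap.codRestrict (LinearMap.ker Φ) μ0 hm1
    have hμinj : Function.Injective μ := by
      intro x y hxy
      have h2 : F * (x : MvPolynomial (Fin (3 + 1)) ℂ) = F * (y : MvPolynomial (Fin (3 + 1)) ℂ) :=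
        congrArg (fun z : LinearMap.ker Φ => ((z : S) : MvPolynomial (Fin (3 + 1)) ℂ)) hxy
      exact Subtype.ext (mul_left_cancel₀ hF0 h2)
    have hμsurj : Function.Surjective μ := by
      rintro ⟨g, hg⟩
      obtain ⟨h, hh⟩ := (hker g).1 hg
      refine ⟨⟨homogeneousComponent (t - d) h, (mem_homogeneousSubmodule _ _).2
        (homogeneousComponent_isHomogeneous _ h)⟩, ?_⟩
      apply Subtype.ext
      apply Subtype.ext
      show F * homogeneousComponent (t - d) h = (g : MvPolynomial (Fin (3 + 1)) ℂ)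
      have h2 := comp_mul hF h t
      rw [if_pos htd, ← hh, homogeneousComponent_eq_self
        ((mem_homogeneousSubmodule _ _).1 g.2)] at h2
      exact h2.symm
    exact LinearEquiv.finrank_eq (LinearEquiv.ofBijective μ ⟨hμinj, hμsurj⟩)

theorem choose3_real (a : ℕ) : (((a + 3).choose 3 : ℕ) : ℝ) = ((a : ℝ) + 3) * (a + 2) * (a + 1) / 6 := by
  have h1 : (a + 3).choose 3 * 6 = (a + 3) * (a + 2) * (a + 1) := by
    induction a with
    | zero => rfl
    | succ a ih =>
      have h2 : (a + 1 + 3).choose 3 = (a + 3).choose 2 + (a + 3).choose 3 := rfl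
      have h3 : (a + 3).choose 2 * 2 = (a + 3) * (a + 2) := by
        rw [Nat.choose_two_right, Nat.div_mul_cancel]
        · rfl
        · exact (Nat.even_mul_pred_self (a + 3)).two_dvd
      rw [h2, add_mul, ih]
      nlinarith [h3]
  have h2 : (((a + 3).choose 3 * 6 : ℕ) : ℝ) = (((a + 3) * (a + 2) * (a + 1) : ℕ) : ℝ) := by
    rw [h1]
  push_cast at h2
  rw [eq_div_iff (by norm_num)]
  exact h2

theorem hilb_real {d : ℕ} {F : MvPolynomial (Fin (3 + 1)) ℂ} (hF : F.IsHomogeneous d)
    (hF0 : F ≠ 0) {t : ℕ} (ht : d ≤ t) :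
    (hilb (Ideal.span {F}) t : ℝ) = d * ((t : ℝ) ^ 2 / 2 + t * (4 - d) / 2 +
      ((d : ℝ) ^ 2 - 6 * d + 11) / 6) := by
  have h1 := hilb_span hF hF0 t
  have h2 : ((hilb (Ideal.span {F}) t : ℕ) : ℝ) + (((t + 3 - d).choose 3 : ℕ) : ℝ) =
      (((t + 3).choose 3 : ℕ) : ℝ) := by exact_mod_cast h1
  have h3 : t + 3 - d = (t - d) + 3 := by omega
  rw [h3, choose3_real, choose3_real, Nat.cast_sub ht] at h2
  linear_combination h2

theorem hilb_growth {d : ℕ} {F : MvPolynomial (Fin (3 + 1)) ℂ} (hF : F.IsHomogeneous d)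
    (hF0 : F ≠ 0) :
    Tendsto (fun t : ℕ => 2 * (hilb (Ideal.span {F}) t : ℝ) / (t : ℝ) ^ 2) atTop
      (𝓝 (d : ℝ)) := by
  have h1 : Tendsto (fun t : ℕ => (d : ℝ) * (1 + (4 - d) * (1 / (t : ℝ)) +
      ((d : ℝ) ^ 2 - 6 * d + 11) / 3 * ((1 / (t : ℝ)) * (1 / (t : ℝ))))) atTop
      (𝓝 ((d : ℝ) * (1 + (4 - d) * 0 + ((d : ℝ) ^ 2 - 6 * d + 11) / 3 * (0 * 0)))) := by
    have h0 : Tendsto (fun t : ℕ => 1 / (t : ℝ)) atTop (𝓝 0) :=
      tendsto_const_div_atTop_nhds_zero_nat 1
    exact ((tendsto_const_nhds.add (h0.const_mul _)).add ((h0.mul h0).const_mul _)).const_mul _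
  have h2 : (d : ℝ) * (1 + (4 - d) * 0 + ((d : ℝ) ^ 2 - 6 * d + 11) / 3 * (0 * 0)) = d := by ring
  rw [h2] at h1
  refine h1.congr' ?_
  filter_upwards [eventually_ge_atTop d, eventually_gt_atTop 0] with t ht ht0
  rw [hilb_real hF hF0 ht]
  have ht' : (t : ℝ) ≠ 0 := by exact_mod_cast ht0.ne'
  field_simp
  ring

end Pool.Agent.TH749.FS
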