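import Pool.Agent.W601.Curve.Basic
import Pool.Agent.TH151.HS

/-!
Lengths of the infinitesimal neighbourhoods of a point of the affine surface `F = 0`, `ℓ = 1`
where the cone over the surface is smooth.
-/

set_option autoImplicit false

namespace Pool.Agent.TH749.FS

open MvPolynomial Pool.Agent.W607

theorem exists_mats (a w : Fin 4 → ℂ) (haw : ∑ i, a i * w i = 1) :
    ∃ (A : Fin 3 → Fin 4 → ℂ) (B : Fin 4 → Fin 3 → ℂ),
      (∀ j k, ∑ i, A j i * B i k = if j = k then 1 else 0) ∧
      (∀ i k, ∑ j, B i j * A j k = (if i = k then 1 else 0) - w i * a k) ∧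
      (∀ j, ∑ i, a i * B i j = 0) := by
  classical
  let lam : (Fin 4 → ℂ) →ₗ[ℂ] ℂ := ∑ i, a i • LinearMap.proj i
  have hlam : ∀ v, lam v = ∑ i, a i * v i := by
    intro v
    simp [lam, LinearMap.sum_apply]
  have hlw : lam w = 1 := by rw [hlam, haw]
  have hrank : Module.finrank ℂ (LinearMap.ker lam) = 3 := by
    have h1 := LinearMap.finrank_range_add_finrank_ker lam
    have h2 : LinearMap.range lam = ⊤ := by
      rw [LinearMap.range_eq_top]
      intro c
      refine ⟨c • w, ?_⟩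
      rw [map_smul, hlw, smul_eq_mul, mul_one]
    rw [h2, finrank_top, Module.finrank_self, Module.finrank_fin_fun] at h1
    omega
  let b := Module.finBasisOfFinrankEq ℂ (LinearMap.ker lam) hrank
  let pr0 : (Fin 4 → ℂ) →ₗ[ℂ] (Fin 4 → ℂ) := LinearMap.id - lam.smulRight w
  have hpr : ∀ v, pr0 v ∈ LinearMap.ker lam := by
    intro v
    rw [LinearMap.mem_ker]
    simp only [pr0, LinearMap.sub_apply, LinearMap.id_apply, LinearMap.smulRight_apply, map_sub,
      map_smul, hlw, smul_eq_mul, mul_one, sub_self]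
  let pr : (Fin 4 → ℂ) →ₗ[ℂ] LinearMap.ker lam := LinearMap.codRestrict _ pr0 hpr
  have hprc : ∀ v, ((pr v : LinearMap.ker lam) : Fin 4 → ℂ) = v - lam v • w := fun v => rfl
  refine ⟨fun j i => b.repr (pr (Pi.single i 1)) j, fun i j => (b j : Fin 4 → ℂ) i,
    fun j k => ?_, fun i k => ?_, fun j => ?_⟩
  · have h1 : pr (b k : Fin 4 → ℂ) = b k := by
      apply Subtype.ext
      rw [hprc]
      have h2 : lam (b k : Fin 4 → ℂ) = 0 := LinearMap.mem_ker.1 (b k).2
      rw [h2, zero_smul, sub_zero]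
    have h3 : (b k : Fin 4 → ℂ) = ∑ i, (b k : Fin 4 → ℂ) i • (Pi.single i 1 : Fin 4 → ℂ) := by
      funext t
      simp [Finset.sum_apply, Pi.single_apply]
    have h4 : b.repr (pr (b k : Fin 4 → ℂ)) j =
        ∑ i, b.repr (pr (Pi.single i 1)) j * (b k : Fin 4 → ℂ) i := by
      conv_lhs => rw [h3]
      rw [map_sum, map_sum, Finsupp.finsetSum_apply]
      refine Finset.sum_congr rfl fun i _ => ?_
      rw [map_smul, map_smul, Finsupp.smul_apply, smul_eq_mul, mul_comm]
    rw [← h4, h1, Module.Basis.repr_self, Finsupp.single_apply]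
    simp only [eq_comm]
  · have h1 := b.sum_repr (pr (Pi.single k 1))
    have h2 := congrArg (fun v : LinearMap.ker lam => (v : Fin 4 → ℂ) i) h1
    simp only [hprc] at h2
    rw [Submodule.coe_sum, Finset.sum_apply] at h2
    have h3 : lam (Pi.single k 1) = a k := by
      rw [hlam]
      simp [Pi.single_apply]
    rw [h3] at h2
    have h4 : ∀ j, ((b.repr (pr (Pi.single k 1)) j • b j : LinearMap.ker lam) : Fin 4 → ℂ) i =
        (b j : Fin 4 → ℂ) i * b.repr (pr (Pi.single k 1)) j := by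
      intro j
      rw [Submodule.coe_smul, Pi.smul_apply, smul_eq_mul, mul_comm]
    simp only [h4] at h2
    rw [h2]
    simp only [Pi.sub_apply, Pi.smul_apply, Pi.single_apply, smul_eq_mul]
    ring
  · have h2 : lam (b j : Fin 4 → ℂ) = 0 := LinearMap.mem_ker.1 (b j).2
    rw [hlam] at h2
    exact h2

theorem exists_lin (ℓ : MvPolynomial (Fin 4) ℂ) (hℓ : ℓ.IsHomogeneous 1) :
    ∃ a : Fin 4 → ℂ, ℓ = ∑ i, C (a i) * X i := by
  have h1 : ℓ ∈ homogeneousSubmodule (Fin 4) ℂ 1 := (mem_homogeneousSubmodule _ _).2 hℓ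
  rw [homogeneousSubmodule_one_eq_span_X, Submodule.mem_span_range_iff_exists_fun] at h1
  obtain ⟨a, ha⟩ := h1
  refine ⟨a, ?_⟩
  rw [← ha]
  refine Finset.sum_congr rfl fun i _ => ?_
  rw [smul_eq_C_mul]

/-- coordinates on the hyperplane `ℓ = 1` centred at `w` -/
theorem exists_coords (ℓ : MvPolynomial (Fin 4) ℂ) (hℓ : ℓ.IsHomogeneous 1) (w : Fin 4 → ℂ)
    (hw : eval w ℓ = 1) :
    ∃ (ρ : MvPolynomial (Fin 4) ℂ →ₐ[ℂ] MvPolynomial (Fin 3) ℂ)
      (σ : MvPolynomial (Fin 3) ℂ →ₐ[ℂ] MvPolynomial (Fin 4) ℂ),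
      (∀ i, ρ (X i - C (w i)) ∈ idealOfVars (Fin 3) ℂ) ∧ (∀ j, σ (X j) ∈ mw w) ∧
      (∀ p, ρ (σ p) = p) ∧ ρ (ℓ - 1) = 0 ∧ ∀ f, σ (ρ f) - f ∈ Ideal.span {ℓ - 1} := by
  classical
  obtain ⟨a, ha⟩ := exists_lin ℓ hℓ
  have haw : ∑ i, a i * w i = 1 := by
    rw [← hw, ha, map_sum]
    refine Finset.sum_congr rfl fun i _ => ?_
    rw [map_mul, eval_C, eval_X]
  obtain ⟨A, B, h1, h2, h3⟩ := exists_mats a w haw
  let ρ : MvPolynomial (Fin 4) ℂ →ₐ[ℂ] MvPolynomial (Fin 3) ℂ :=
    aeval fun i => C (w i) + ∑ j, C (B i j) * X j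
  let σ : MvPolynomial (Fin 3) ℂ →ₐ[ℂ] MvPolynomial (Fin 4) ℂ :=
    aeval fun j => ∑ i, C (A j i) * (X i - C (w i))
  have hρX : ∀ i, ρ (X i) = C (w i) + ∑ j, C (B i j) * X j := fun i => aeval_X _ _
  have hσX : ∀ j, σ (X j) = ∑ i, C (A j i) * (X i - C (w i)) := fun j => aeval_X _ _
  have hρC : ∀ c, ρ (C c) = C c := fun c => algHom_C ρ c
  have hσC : ∀ c, σ (C c) = C c := fun c => algHom_C σ c
  have hρX' : ∀ i, ρ (X i - C (w i)) = ∑ j, C (B i j) * X j := by
    intro i
    rw [map_sub, hρX, hρC]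
    ring
  refine ⟨ρ, σ, fun i => ?_, fun j => ?_, fun p => ?_, ?_, fun f => ?_⟩
  · rw [hρX']
    exact Ideal.sum_mem _ fun j _ => Ideal.mul_mem_left _ _ (Ideal.subset_span ⟨j, rfl⟩)
  · rw [hσX]
    exact Ideal.sum_mem _ fun i _ => Ideal.mul_mem_left _ _ (Ideal.subset_span ⟨i, rfl⟩)
  · have h4 : ρ.comp σ = AlgHom.id ℂ _ := by
      apply MvPolynomial.algHom_ext
      intro j
      rw [AlgHom.comp_apply, hσX, map_sum, AlgHom.id_apply]
      have h5 : ∀ i, ρ (C (A j i) * (X i - C (w i))) = ∑ k, C (A j i * B i k) * X k := by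
        intro i
        rw [map_mul, hρC, hρX', Finset.mul_sum]
        refine Finset.sum_congr rfl fun k _ => ?_
        rw [C_mul, mul_assoc]
      simp only [h5]
      rw [Finset.sum_comm]
      have h6 : ∀ k, ∑ i, C (A j i * B i k) * (X k : MvPolynomial (Fin 3) ℂ) =
          C (if j = k then 1 else 0) * X k := by
        intro k
        rw [← Finset.sum_mul, ← map_sum, h1 j k]
      simp only [h6]
      rw [Finset.sum_eq_single j]
      · rw [if_pos rfl, C_1, one_mul]
      · intro k _ hk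
        rw [if_neg (Ne.symm hk), C_0, zero_mul]
      · intro h; exact absurd (Finset.mem_univ j) h
    exact DFunLike.congr_fun h4 p
  · rw [map_sub, map_one, ha, map_sum]
    have h5 : ∀ i, ρ (C (a i) * X i) = C (a i * w i) + ∑ k, C (a i * B i k) * X k := by
      intro i
      rw [map_mul, hρC, hρX, mul_add, Finset.mul_sum, C_mul]
      congr 1
      refine Finset.sum_congr rfl fun k _ => ?_
      rw [C_mul, mul_assoc]
    simp only [h5]
    rw [Finset.sum_add_distrib, ← map_sum, haw, Finset.sum_comm, C_1]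
    have h6 : ∀ k, ∑ i, C (a i * B i k) * (X k : MvPolynomial (Fin 3) ℂ) = 0 := by
      intro k
      rw [← Finset.sum_mul, ← map_sum, h3 k, C_0, zero_mul]
    simp only [h6, Finset.sum_const_zero]
    ring
  · have hX : ∀ i, σ (ρ (X i)) - X i = - (C (w i) * (ℓ - 1)) := by
      intro i
      rw [hρX, map_add, hσC, map_sum]
      have h5 : ∀ j, σ (C (B i j) * X j) = ∑ k, C (B i j * A j k) * (X k - C (w k)) := by
        intro j
        rw [map_mul, hσC, hσX, Finset.mul_sum]
        refine Finset.sum_congr rfl fun k _ => ?_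
        rw [C_mul, mul_assoc]
      simp only [h5]
      rw [Finset.sum_comm]
      have h6 : ∀ k, ∑ j, C (B i j * A j k) * (X k - C (w k) : MvPolynomial (Fin 4) ℂ) =
          C (if i = k then 1 else 0) * (X k - C (w k)) - C (w i) * (C (a k) * (X k - C (w k))) := by
        intro k
        rw [← Finset.sum_mul, ← map_sum, h2 i k, C_sub, C_mul]
        ring
      simp only [h6]
      rw [Finset.sum_sub_distrib, ← Finset.mul_sum]
      have h7 : ∑ k, C (if i = k then 1 else 0) * (X k - C (w k) : MvPolynomial (Fin 4) ℂ) =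
          X i - C (w i) := by
        rw [Finset.sum_eq_single i]
        · rw [if_pos rfl, C_1, one_mul]
        · intro k _ hk
          rw [if_neg (Ne.symm hk), C_0, zero_mul]
        · intro h; exact absurd (Finset.mem_univ i) h
      have h8 : ∑ k, C (a k) * (X k - C (w k) : MvPolynomial (Fin 4) ℂ) = ℓ - 1 := by
        simp only [mul_sub]
        rw [Finset.sum_sub_distrib, ← ha]
        have h9 : ∑ k, C (a k) * (C (w k) : MvPolynomial (Fin 4) ℂ) = 1 := by
          simp only [← C_mul]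
          rw [← map_sum, haw, C_1]
        rw [h9]
      rw [h7, h8]
      ring
    induction f using MvPolynomial.induction_on with
    | C c => rw [hρC, hσC, sub_self]; exact zero_mem _
    | add p q hp hq =>
      have : σ (ρ (p + q)) - (p + q) = (σ (ρ p) - p) + (σ (ρ q) - q) := by
        rw [map_add, map_add]; ring
      rw [this]
      exact add_mem hp hq
    | mul_X p i hp =>
      have : σ (ρ (p * X i)) - p * X i = (σ (ρ p) - p) * σ (ρ (X i)) + p * (σ (ρ (X i)) - X i) := by
        rw [map_mul, map_mul]; ring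
      rw [this, hX]
      refine add_mem (Ideal.mul_mem_right _ _ hp) (Ideal.mul_mem_left _ _ (neg_mem ?_))
      exact Ideal.mul_mem_left _ _ (Ideal.mem_span_singleton_self _)

end Pool.Agent.TH749.FS
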