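import Pool.Agent.TH749.FS.Local

/-!
The length of the `j`-th neighbourhood of a smooth point of the surface is `(j + 1) choose 2`.
-/

set_option autoImplicit false

namespace Pool.Agent.TH749.FS

open MvPolynomial Pool.Agent.W607 Pool.Agent.TH151.SchubMult Pool.Agent.W601.Curve

theorem eval_of_mem_mw {w : Fin 4 → ℂ} {x : MvPolynomial (Fin 4) ℂ} (hx : x ∈ mw w) :
    eval w x = 0 := by
  have h1 : mw w ≤ RingHom.ker (eval w) := by
    rw [mw, Ideal.span_le]
    rintro _ ⟨i, rfl⟩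
    rw [SetLike.mem_coe, RingHom.mem_ker, map_sub, eval_X, eval_C, sub_self]
  exact RingHom.mem_ker.1 (h1 hx)

theorem eval_pderiv_of_mem {w : Fin 4 → ℂ} {x : MvPolynomial (Fin 4) ℂ} (hx : x ∈ (mw w) ^ 2)
    (i : Fin 4) : eval w (pderiv i x) = 0 := by
  rw [pow_two] at hx
  refine Submodule.mul_induction_on hx ?_ ?_
  · intro a ha b hb
    rw [Derivation.leibniz, smul_eq_mul, smul_eq_mul, map_add, map_mul, map_mul,
      eval_of_mem_mw ha, eval_of_mem_mw hb]
    ring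
  · intro a b ha hb
    rw [map_add, map_add, ha, hb, add_zero]

/-- Euler's formula -/
theorem euler {d : ℕ} {F : MvPolynomial (Fin 4) ℂ} (hF : F.IsHomogeneous d) (w : Fin 4 → ℂ) :
    ∑ i, w i * eval w (pderiv i F) = d * eval w F := by
  have h := hF.sum_X_mul_pderiv
  have h2 := congrArg (eval w) h
  rw [map_sum, nsmul_eq_mul, map_mul, map_natCast] at h2
  rw [← h2]
  refine Finset.sum_congr rfl fun i _ => ?_
  rw [map_mul, eval_X]

theorem card_diff (j : ℕ) (hj : 1 ≤ j) :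
    (Sfin (Fin 3) j).card - (Sfin (Fin 3) (j - 1)).card = (j + 1).choose 2 := by
  obtain ⟨k, rfl⟩ : ∃ k, j = k + 1 := ⟨j - 1, by omega⟩
  rw [Nat.add_sub_cancel, card_Sfin, card_Sfin, Finset.sum_range_succ, Nat.add_sub_cancel_left,
    Finset.card_finsuppAntidiag_nat_eq_choose, Finset.card_univ, Fintype.card_fin]
  have h1 : 3 + k - 1 = k + 2 := by omega
  rw [h1, Nat.choose_symm_add]

theorem finrank_local {d : ℕ} {F ℓ : MvPolynomial (Fin 4) ℂ} (hF : F.IsHomogeneous d)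
    (hℓ : ℓ.IsHomogeneous 1) {w : Fin 4 → ℂ} (hw : eval w ℓ = 1) (hFw : eval w F = 0)
    (hsm : ∃ i, eval w (pderiv i F) ≠ 0) (j : ℕ) :
    Module.finrank ℂ (MvPolynomial (Fin 4) ℂ ⧸
      (Ideal.span {F} ⊔ Ideal.span {ℓ - 1} ⊔ (mw w) ^ j)) = (j + 1).choose 2 := by
  classical
  rcases Nat.eq_zero_or_pos j with hj | hj
  · subst hj
    have : Subsingleton (MvPolynomial (Fin 4) ℂ ⧸
        (Ideal.span {F} ⊔ Ideal.span {ℓ - 1} ⊔ (mw w) ^ 0)) := by
      rw [Ideal.Quotient.subsingleton_iff]; simp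
    rw [Module.finrank_zero_of_subsingleton]
    rfl
  obtain ⟨ρ, σ, h1, h2, h3, h4, h5⟩ := exists_coords ℓ hℓ w hw
  set K := Ideal.span {F} ⊔ Ideal.span {ℓ - 1} ⊔ (mw w) ^ j with hK
  set K' := Ideal.span {ρ F} ⊔ idealOfVars (Fin 3) ℂ ^ j with hK'
  have hρM : mw w ≤ (idealOfVars (Fin 3) ℂ).comap ρ := by
    rw [mw, Ideal.span_le]
    rintro _ ⟨i, rfl⟩
    exact h1 i
  have hσM : idealOfVars (Fin 3) ℂ ≤ (mw w).comap σ := by
    rw [idealOfVars, Ideal.span_le]
    rintro _ ⟨i, rfl⟩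
    exact h2 i
  have hρMp : ∀ t, (mw w) ^ t ≤ (idealOfVars (Fin 3) ℂ ^ t).comap ρ := fun t =>
    (Ideal.pow_right_mono hρM t).trans (Ideal.le_comap_pow _ t)
  have hσMp : ∀ t, idealOfVars (Fin 3) ℂ ^ t ≤ ((mw w) ^ t).comap σ := fun t =>
    (Ideal.pow_right_mono hσM t).trans (Ideal.le_comap_pow _ t)
  have hKK' : K ≤ K'.comap ρ := by
    refine sup_le (sup_le ?_ ?_) ?_
    · rw [Ideal.span_singleton_le_iff_mem, Ideal.mem_comap]
      exact Ideal.mem_sup_left (Ideal.mem_span_singleton_self _)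
    · rw [Ideal.span_singleton_le_iff_mem, Ideal.mem_comap, h4]
      exact zero_mem _
    · exact (hρMp j).trans (Ideal.comap_mono le_sup_right)
  have hK'K : K' ≤ K.comap σ := by
    refine sup_le ?_ ?_
    · rw [Ideal.span_singleton_le_iff_mem, Ideal.mem_comap]
      have h6 : σ (ρ F) = (σ (ρ F) - F) + F := by ring
      rw [h6]
      refine add_mem (Ideal.mem_sup_left (Ideal.mem_sup_right (h5 F)))
        (Ideal.mem_sup_left (Ideal.mem_sup_left (Ideal.mem_span_singleton_self _)))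
    · exact (hσMp j).trans (Ideal.comap_mono le_sup_right)
  let φ : (MvPolynomial (Fin 4) ℂ ⧸ K) →ₐ[ℂ] (MvPolynomial (Fin 3) ℂ ⧸ K') :=
    Ideal.quotientMapₐ K' ρ hKK'
  let ψ : (MvPolynomial (Fin 3) ℂ ⧸ K') →ₐ[ℂ] (MvPolynomial (Fin 4) ℂ ⧸ K) :=
    Ideal.quotientMapₐ K σ hK'K
  have hφ : Function.Surjective φ.toLinearMap := by
    intro y
    obtain ⟨p, rfl⟩ := Ideal.Quotient.mk_surjective y
    refine ⟨Ideal.Quotient.mk K (σ p), ?_⟩
    show Ideal.Quotient.mk K' (ρ (σ p)) = _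
    rw [h3]
  have hψ : Function.Surjective ψ.toLinearMap := by
    intro y
    obtain ⟨p, rfl⟩ := Ideal.Quotient.mk_surjective y
    refine ⟨Ideal.Quotient.mk K' (ρ p), ?_⟩
    show Ideal.Quotient.mk K (σ (ρ p)) = _
    rw [Ideal.Quotient.eq]
    exact Ideal.mem_sup_left (Ideal.mem_sup_right (h5 p))
  have hfin : Module.Finite ℂ (MvPolynomial (Fin 4) ℂ ⧸ K) :=
    finite_quot_of_le w j K le_sup_right
  have hfin' : Module.Finite ℂ (MvPolynomial (Fin 3) ℂ ⧸ K') :=
    Module.Finite.of_surjective φ.toLinearMap hφ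
  have e1 := LinearMap.finrank_le_finrank_of_surjective hφ
  have e2 := LinearMap.finrank_le_finrank_of_surjective hψ
  have e3 : Module.finrank ℂ (MvPolynomial (Fin 4) ℂ ⧸ K) =
      Module.finrank ℂ (MvPolynomial (Fin 3) ℂ ⧸ K') := le_antisymm e2 e1
  have hρF1 : ρ F ∈ idealOfVars (Fin 3) ℂ ^ 1 := by
    have h6 := sub_C_eval_mem w F
    rw [hFw, C_0, sub_zero] at h6
    rw [pow_one]
    exact hρM h6
  have hρF2 : ρ F ∉ idealOfVars (Fin 3) ℂ ^ (1 + 1) := by
    intro h6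
    have h7 : σ (ρ F) ∈ (mw w) ^ 2 := hσMp 2 h6
    obtain ⟨g, hg⟩ := Ideal.mem_span_singleton'.1 (h5 F)
    -- F = σ (ρ F) - g * (ℓ - 1)
    have h8 : F = σ (ρ F) - g * (ℓ - 1) := by rw [hg]; ring
    have h9 : ∀ i, eval w (pderiv i F) = - (eval w g * eval w (pderiv i ℓ)) := by
      intro i
      have hd : pderiv i (ℓ - 1) = pderiv i ℓ := by
        rw [map_sub, Derivation.map_one_eq_zero, sub_zero]
      have hw1 : eval w (ℓ - 1) = 0 := by rw [map_sub, hw, map_one, sub_self]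
      conv_lhs => rw [h8]
      rw [map_sub, map_sub, eval_pderiv_of_mem h7, Derivation.leibniz, smul_eq_mul, smul_eq_mul,
        map_add, map_mul, map_mul, hd, hw1]
      ring
    have h10 := euler hF w
    have h11 := euler hℓ w
    rw [hFw, mul_zero] at h10
    rw [hw, Nat.cast_one, mul_one] at h11
    have h12 : ∑ i, w i * eval w (pderiv i F) = - (eval w g) * ∑ i, w i * eval w (pderiv i ℓ) := by
      rw [Finset.mul_sum]
      refine Finset.sum_congr rfl fun i _ => ?_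
      rw [h9]
      ring
    rw [h10, h11, mul_one] at h12
    obtain ⟨i, hi⟩ := hsm
    apply hi
    have h13 : eval w g = 0 := by linear_combination h12
    rw [h9, h13]
    ring
  rw [e3, hK', finrank_hyper hρF1 hρF2 hj, card_diff j hj]

end Pool.Agent.TH749.FS
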