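import Pool.Agent.TH749.FS.Local2

/-!
The cone over a smooth surface has tangent spaces of dimension three.
-/

set_option autoImplicit false

namespace Pool.Agent.TH749.FS

open MvPolynomial Pool.Agent.W607 Pool.Agent.TH151.SchubMult Pool.Agent.W601.Curve

theorem card_Sfin_two : (Sfin (Fin 4) 2).card = 5 := by
  rw [card_Sfin, Finset.sum_range_succ, Finset.sum_range_one,
    Finset.card_finsuppAntidiag_nat_eq_choose, Finset.card_finsuppAntidiag_nat_eq_choose,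
    Finset.card_univ, Fintype.card_fin]
  rfl

theorem card_Sfin_one : (Sfin (Fin 4) 1).card = 1 := by
  rw [card_Sfin, Finset.sum_range_one, Finset.card_finsuppAntidiag_nat_eq_choose,
    Finset.card_univ, Fintype.card_fin]
  rfl

theorem card_Sfin_one' (j : ℕ) (hj : j = 1) : (Sfin (Fin 4) j).card = 1 := by
  subst hj
  exact card_Sfin_one

theorem hyper_two {G : MvPolynomial (Fin 4) ℂ} (h1 : G ∈ idealOfVars (Fin 4) ℂ ^ 1)
    (h2 : G ∉ idealOfVars (Fin 4) ℂ ^ (1 + 1)) :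
    Module.finrank ℂ (MvPolynomial (Fin 4) ℂ ⧸ (Ideal.span {G} ⊔ idealOfVars (Fin 4) ℂ ^ 2)) =
      4 := by
  have h3 : ∀ k : ℕ, k = 2 → ∀ a b c : ℕ, c = a - b → a = 5 → b = 1 → c = 4 := by
    intro k _ a b c h ha hb
    omega
  refine h3 2 rfl _ _ _ (finrank_hyper (s := 1) (k := 2) h1 h2 (Nat.le_succ 1)) card_Sfin_two ?_
  exact card_Sfin_one' _ (Nat.add_sub_cancel (n := 1) (m := 1))

theorem exists_translate (w : Fin 4 → ℂ) :
    ∃ ρ σ : MvPolynomial (Fin 4) ℂ →ₐ[ℂ] MvPolynomial (Fin 4) ℂ,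
      (∀ i, ρ (X i - C (w i)) = X i) ∧ (∀ j, σ (X j) = X j - C (w j)) ∧
      (∀ p, ρ (σ p) = p) ∧ (∀ p, σ (ρ p) = p) := by
  let ρ : MvPolynomial (Fin 4) ℂ →ₐ[ℂ] MvPolynomial (Fin 4) ℂ := aeval fun i => X i + C (w i)
  let σ : MvPolynomial (Fin 4) ℂ →ₐ[ℂ] MvPolynomial (Fin 4) ℂ := aeval fun i => X i - C (w i)
  have hρX : ∀ i, ρ (X i) = X i + C (w i) := fun i => aeval_X _ _
  have hσX : ∀ j, σ (X j) = X j - C (w j) := fun j => aeval_X _ _
  have hρC : ∀ c, ρ (C c) = C c := fun c => algHom_C ρ c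
  have hσC : ∀ c, σ (C c) = C c := fun c => algHom_C σ c
  refine ⟨ρ, σ, fun i => ?_, hσX, fun p => ?_, fun p => ?_⟩
  · rw [map_sub, hρX, hρC, add_sub_cancel_right]
  · have h4 : ρ.comp σ = AlgHom.id ℂ _ := by
      apply MvPolynomial.algHom_ext
      intro j
      rw [AlgHom.comp_apply, hσX, map_sub, hρX, hρC, AlgHom.id_apply]
      ring
    exact DFunLike.congr_fun h4 p
  · have h4 : σ.comp ρ = AlgHom.id ℂ _ := by
      apply MvPolynomial.algHom_ext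
      intro j
      rw [AlgHom.comp_apply, hρX, map_add, hσX, hσC, AlgHom.id_apply]
      ring
    exact DFunLike.congr_fun h4 p

theorem finrank_cone {F : MvPolynomial (Fin 4) ℂ} {w : Fin 4 → ℂ} (hFw : eval w F = 0)
    (hsm : ∃ i, eval w (pderiv i F) ≠ 0) :
    Module.finrank ℂ (MvPolynomial (Fin 4) ℂ ⧸ (Ideal.span {F} ⊔ (mw w) ^ 2)) = 4 := by
  classical
  obtain ⟨ρ, σ, h1, h2, h3, h5⟩ := exists_translate w
  set K := Ideal.span {F} ⊔ (mw w) ^ 2 with hK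
  set K' := Ideal.span {ρ F} ⊔ idealOfVars (Fin 4) ℂ ^ 2 with hK'
  have hρM : mw w ≤ (idealOfVars (Fin 4) ℂ).comap ρ := by
    rw [mw, Ideal.span_le]
    rintro _ ⟨i, rfl⟩
    rw [SetLike.mem_coe, Ideal.mem_comap, h1]
    exact Ideal.subset_span ⟨i, rfl⟩
  have hσM : idealOfVars (Fin 4) ℂ ≤ (mw w).comap σ := by
    rw [idealOfVars, Ideal.span_le]
    rintro _ ⟨i, rfl⟩
    rw [SetLike.mem_coe, Ideal.mem_comap, h2]
    exact Ideal.subset_span ⟨i, rfl⟩
  have hρMp : ∀ t, (mw w) ^ t ≤ (idealOfVars (Fin 4) ℂ ^ t).comap ρ := fun t =>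
    (Ideal.pow_right_mono hρM t).trans (Ideal.le_comap_pow _ t)
  have hσMp : ∀ t, idealOfVars (Fin 4) ℂ ^ t ≤ ((mw w) ^ t).comap σ := fun t =>
    (Ideal.pow_right_mono hσM t).trans (Ideal.le_comap_pow _ t)
  have hKK' : K ≤ K'.comap ρ := by
    refine sup_le ?_ ?_
    · rw [Ideal.span_singleton_le_iff_mem, Ideal.mem_comap]
      exact Ideal.mem_sup_left (Ideal.mem_span_singleton_self _)
    · exact (hρMp 2).trans (Ideal.comap_mono le_sup_right)
  have hK'K : K' ≤ K.comap σ := by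
    refine sup_le ?_ ?_
    · rw [Ideal.span_singleton_le_iff_mem, Ideal.mem_comap, h5]
      exact Ideal.mem_sup_left (Ideal.mem_span_singleton_self _)
    · exact (hσMp 2).trans (Ideal.comap_mono le_sup_right)
  let φ : (MvPolynomial (Fin 4) ℂ ⧸ K) →ₐ[ℂ] (MvPolynomial (Fin 4) ℂ ⧸ K') :=
    Ideal.quotientMapₐ K' ρ hKK'
  let ψ : (MvPolynomial (Fin 4) ℂ ⧸ K') →ₐ[ℂ] (MvPolynomial (Fin 4) ℂ ⧸ K) :=
    Ideal.quotientMapₐ K σ hK'K
  have hφ : Function.Surjective φ.toLinearMap := by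
    intro y
    obtain ⟨p, rfl⟩ := Ideal.Quotient.mk_surjective y
    refine ⟨Ideal.Quotient.mk K (σ p), ?_⟩
    show Ideal.Quotient.mk K' (ρ (σ p)) = _
    rw [h3]
  have hψ : Function.Surjective ψ.toLinearMap := by
    intro y
    obtain ⟨p, rfl⟩ := Ideal.Quotient.mk_surjective y
    refine ⟨Ideal.Quotient.mk K' (ρ p), ?_⟩
    show Ideal.Quotient.mk K (σ (ρ p)) = _
    rw [h5]
  have hfin : Module.Finite ℂ (MvPolynomial (Fin 4) ℂ ⧸ K) :=
    finite_quot_of_le w 2 K le_sup_right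
  have hfin' : Module.Finite ℂ (MvPolynomial (Fin 4) ℂ ⧸ K') :=
    Module.Finite.of_surjective φ.toLinearMap hφ
  have e3 : Module.finrank ℂ (MvPolynomial (Fin 4) ℂ ⧸ K) =
      Module.finrank ℂ (MvPolynomial (Fin 4) ℂ ⧸ K') :=
    le_antisymm (LinearMap.finrank_le_finrank_of_surjective hψ)
      (LinearMap.finrank_le_finrank_of_surjective hφ)
  have hρF1 : ρ F ∈ idealOfVars (Fin 4) ℂ ^ 1 := by
    have h6 := sub_C_eval_mem w F
    rw [hFw, C_0, sub_zero] at h6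
    rw [pow_one]
    exact hρM h6
  have hρF2 : ρ F ∉ idealOfVars (Fin 4) ℂ ^ (1 + 1) := by
    intro h6
    have h7 : σ (ρ F) ∈ (mw w) ^ 2 := hσMp 2 h6
    rw [h5] at h7
    obtain ⟨i, hi⟩ := hsm
    exact hi (eval_pderiv_of_mem h7 i)
  rw [e3]
  exact hyper_two hρF1 hρF2

end Pool.Agent.TH749.FS
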