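import Pool.Agent.TH749.FS.Count
import Pool.Agent.TH749.FS.Hilb
import Pool.Agent.TH749.FS.Local2

/-!
Series of fat points on a smooth surface in `P³`, from separation of jets.
-/

set_option autoImplicit false

namespace Pool.Agent.TH749.FS

open MvPolynomial Pool.Agent.W607 Pool.Agent.W601.Curve Filter Topology

/-- ideal of the functions vanishing to order `m` at `w` on the surface `F = 0`, `ℓ = 1` -/
noncomputable abbrev fatI (F ℓ : MvPolynomial (Fin (3 + 1)) ℂ) (w : Fin (3 + 1) → ℂ) (m : ℕ) :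
    Ideal (MvPolynomial (Fin (3 + 1)) ℂ) :=
  Ideal.span {F} ⊔ Ideal.span {ℓ - 1} ⊔ (mw w) ^ m

theorem choose2_real (a : ℕ) : (((a + 1).choose 2 : ℕ) : ℝ) = ((a : ℝ) + 1) * a / 2 := by
  have h3 : (a + 1).choose 2 * 2 = (a + 1) * a := by
    rw [Nat.choose_two_right, Nat.div_mul_cancel]
    · rfl
    · exact (Nat.even_mul_pred_self (a + 1)).two_dvd
  have h2 : (((a + 1).choose 2 * 2 : ℕ) : ℝ) = (((a + 1) * a : ℕ) : ℝ) := by rw [h3]
  push_cast at h2
  rw [eq_div_iff (by norm_num)]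
  exact h2

section
variable {d n : ℕ} {F ℓ : MvPolynomial (Fin (3 + 1)) ℂ}

/-- the multiplicities of a section of `O(e)` -/
theorem mult_le (hF : F.IsHomogeneous d) (hirr : Irreducible F)
    (hsm : ∀ x : Fin (3 + 1) → ℂ, x ≠ 0 → eval x F = 0 → ∃ i, eval x (pderiv i F) ≠ 0)
    (hℓ : ℓ.IsHomogeneous 1) {w : Fin n → Fin (3 + 1) → ℂ} (hwℓ : ∀ q, eval (w q) ℓ = 1)
    (hwF : ∀ q, eval (w q) F = 0) {E0 k0 : ℕ} (hE0 : 1 ≤ E0)
    (hsep : Sep (Ideal.span {F}) ℓ E0 (k0 + 1) w) (hk0 : 1 ≤ k0)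
    {e : ℕ} {m : Fin n → ℕ} {G : MvPolynomial (Fin (3 + 1)) ℂ} (hG : G.IsHomogeneous e)
    (hGP : G ∉ Ideal.span {F}) (hGm : ∀ q, G ∈ fatI F ℓ (w q) (m q)) :
    k0 * ∑ q, m q ≤ d * e * E0 := by
  classical
  have hF0 : F ≠ 0 := hirr.ne_zero
  have hP : (Ideal.span {F}).IsPrime := (Ideal.span_singleton_prime hF0).2 hirr.prime
  have hw0 : ∀ q, w q ≠ 0 := by
    intro q h0
    have h1 := hwℓ q
    obtain ⟨a, ha⟩ := exists_lin ℓ hℓ
    rw [h0, ha, map_sum] at h1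
    simp at h1
  have hlen : ∀ q j, Module.finrank ℂ (MvPolynomial (Fin (3 + 1)) ℂ ⧸
      (Ideal.span {F} ⊔ Ideal.span {ℓ - 1} ⊔ (mw (w q)) ^ j)) = (j + 1).choose 2 := fun q j =>
    finrank_local hF hℓ (hwℓ q) (hwF q) (hsm (w q) (hw0 q) (hwF q)) j
  by_contra hcon
  push Not at hcon
  set C : ℝ := (d : ℝ) * e * (4 - d - e) / 2 - ∑ q, (m q : ℝ) +
    ∑ q, (m q : ℝ) * (m q - 1) / 2 with hC
  obtain ⟨a0, ha0⟩ := exists_nat_gt C
  set a : ℕ := max (max a0 (e + d)) (max 1 (∑ q, m q)) with ha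
  have hm1 : ∀ q, m q ≤ ∑ q, m q := fun q =>
    Finset.single_le_sum (f := m) (fun _ _ => Nat.zero_le _) (Finset.mem_univ q)
  have ha1 : a0 ≤ a := (le_max_left _ _).trans (le_max_left _ _)
  have ha2 : e + d ≤ a := (le_max_right _ _).trans (le_max_left _ _)
  have ha3 : 1 ≤ a := (le_max_left _ _).trans (le_max_right _ _)
  have ha4 : ∑ q, m q ≤ a := (le_max_right _ _).trans (le_max_right _ _)
  have hs := Sep.nsmul hsep ha3
  have haE : a ≤ a * E0 := Nat.le_mul_of_pos_right a hE0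
  have hak : a ≤ a * k0 := Nat.le_mul_of_pos_right a hk0
  have hms : ∀ q, m q ≤ a * k0 + 1 := fun q => (hm1 q).trans (ha4.trans (by omega))
  have h1 := count hP hs (show e ≤ a * E0 by omega) hms hG hGP hGm
  simp only [hlen] at h1
  have h2 : (((∑ q : Fin n, (a * k0 + 1 + 1).choose 2) + hilb (Ideal.span {F}) (a * E0 - e) : ℕ) : ℝ)
      ≤ (((∑ q, (a * k0 + 1 - m q + 1).choose 2) + hilb (Ideal.span {F}) (a * E0) : ℕ) : ℝ) := by
    exact_mod_cast h1
  push_cast at h2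
  rw [hilb_real hF hF0 (show d ≤ a * E0 by omega),
    hilb_real hF hF0 (show d ≤ a * E0 - e by omega)] at h2
  have h3 : ∀ q, (((a * k0 + 1 - m q + 1).choose 2 : ℕ) : ℝ) =
      (((a * k0 + 1 + 1).choose 2 : ℕ) : ℝ) - (m q : ℝ) * ((a : ℝ) * k0 + 1) +
        (m q : ℝ) * (m q - 1) / 2 := by
    intro q
    rw [choose2_real, choose2_real, Nat.cast_sub (hms q)]
    push_cast
    ring
  simp only [h3] at h2
  rw [Finset.sum_add_distrib, Finset.sum_sub_distrib, ← Finset.sum_mul,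
    Nat.cast_sub (show e ≤ a * E0 by omega)] at h2
  push_cast at h2
  have h4 : ((d * e * E0 + 1 : ℕ) : ℝ) ≤ ((k0 * ∑ q, m q : ℕ) : ℝ) := by exact_mod_cast hcon
  push_cast at h4
  have h5 : (a : ℝ) ≤ C := by
    have ha' : (0 : ℝ) ≤ a := Nat.cast_nonneg a
    have h6 := mul_le_mul_of_nonneg_left h4 ha'
    rw [hC]
    linarith
  have h6 : (a0 : ℝ) ≤ a := by exact_mod_cast ha1
  linarith

theorem len_eq (hF : F.IsHomogeneous d)
    (hsm : ∀ x : Fin (3 + 1) → ℂ, x ≠ 0 → eval x F = 0 → ∃ i, eval x (pderiv i F) ≠ 0)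
    (hℓ : ℓ.IsHomogeneous 1) {x : Fin (3 + 1) → ℂ} (hxℓ : eval x ℓ = 1) (hxF : eval x F = 0)
    (j : ℕ) :
    Module.finrank ℂ (MvPolynomial (Fin (3 + 1)) ℂ ⧸ fatI F ℓ x j) = (j + 1).choose 2 := by
  have hx0 : x ≠ 0 := by
    intro h0
    obtain ⟨a, ha⟩ := exists_lin ℓ hℓ
    rw [h0, ha, map_sum] at hxℓ
    simp at hxℓ
  exact finrank_local hF hℓ hxℓ hxF (hsm x hx0 hxF) j

theorem hilb_sub (hF : F.IsHomogeneous d) (hF0 : F ≠ 0) (e : ℕ) :
    (e + 3).choose 3 - (e + 3 - d).choose 3 = hilb (Ideal.span {F}) e := by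
  have := hilb_span hF hF0 e
  omega

/-- **the two ranges from separation of jets** -/
theorem two_ranges (hd : 1 ≤ d) (hdn : d ≤ n) (hF : F.IsHomogeneous d) (hirr : Irreducible F)
    (hsm : ∀ x : Fin (3 + 1) → ℂ, x ≠ 0 → eval x F = 0 → ∃ i, eval x (pderiv i F) ≠ 0)
    (hℓ : ℓ.IsHomogeneous 1)
    (hsepX : ∀ ε : ℝ, 0 < ε → ∃ E s : ℕ, 2 ≤ s ∧
      (E : ℝ) * √d ≤ (1 + ε) * (√n * ((s : ℝ) - 1)) ∧
      ∃ w : Fin n → Fin (3 + 1) → ℂ,
      (∀ q, eval (w q) ℓ = 1) ∧ (∀ q, ∀ f ∈ Ideal.span {F}, eval (w q) f = 0) ∧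
        Sep (Ideal.span {F}) ℓ E s w) :
    ∃ H : ℕ → MvPolynomial (Fin n × Fin (3 + 1)) ℂ,
      (∀ k, ∃ w : Fin n → Fin (3 + 1) → ℂ, (∀ q, eval (w q) ℓ = 1 ∧ eval (w q) F = 0) ∧
        eval (fun p => w p.1 p.2) (H k) ≠ 0) ∧
      (∀ (e : ℕ) (m : Fin n → ℕ), √(n * d) * e < ∑ q, (m q : ℝ) →
        ∃ k, ∀ w : Fin n → Fin (3 + 1) → ℂ, (∀ q, eval (w q) ℓ = 1 ∧ eval (w q) F = 0) →
          eval (fun p => w p.1 p.2) (H k) ≠ 0 →
          ser (Ideal.span {F}) (fun q => fatI F ℓ (w q) (m q)) e = ⊥ ∧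
          Module.finrank ℂ (ser (Ideal.span {F}) (fun q => fatI F ℓ (w q) (m q)) e) =
            ((e + 3).choose 3 - (e + 3 - d).choose 3) - ∑ q, (m q + 1).choose 2) ∧
      (∀ ε : ℝ, 0 < ε → ∃ (k : ℕ) (c : ℝ), ∀ w : Fin n → Fin (3 + 1) → ℂ,
          (∀ q, eval (w q) ℓ = 1 ∧ eval (w q) F = 0) →
          eval (fun p => w p.1 p.2) (H k) ≠ 0 →
          ∀ (s e : ℕ) (m : Fin n → ℕ), (∀ q, m q ≤ s) → (1 + ε) * √n * s + c ≤ √d * e →
          Module.finrank ℂ (ser (Ideal.span {F}) (fun q => fatI F ℓ (w q) (m q)) e) =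
            ((e + 3).choose 3 - (e + 3 - d).choose 3) - ∑ q, (m q + 1).choose 2) := by
  classical
  have hF0 : F ≠ 0 := hirr.ne_zero
  have hd0 : (0 : ℝ) < d := by exact_mod_cast hd
  have hqd : 0 < √(d : ℝ) := Real.sqrt_pos.2 hd0
  have hn0 : (0 : ℝ) < n := by exact_mod_cast (by omega : 0 < n)
  have hqn : 0 < √(n : ℝ) := Real.sqrt_pos.2 hn0
  have hqdn : √(d : ℝ) ≤ √(n : ℝ) := Real.sqrt_le_sqrt (by exact_mod_cast hdn)
  choose E s hs hnum w0 hw01 hw0I hsep0 using fun k : ℕ =>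
    hsepX (1 / ((k : ℝ) + 1)) (by positivity)
  choose H hH0 hH using fun k => Sep.exists_open (I := Ideal.span {F}) (ℓ := ℓ) (E := E k)
    (s := s k) (w0 := w0 k) (hsep0 k)
  -- normalised degrees
  have hsk : ∀ k, ∃ k0, s k = k0 + 1 ∧ 1 ≤ k0 := fun k =>
    ⟨s k - 1, by have := hs k; omega, by have := hs k; omega⟩
  choose k0 hk0 hk1 using hsk
  set E' : ℕ → ℕ := fun k => max (E k) 1 with hE'
  have hE1 : ∀ k, 1 ≤ E' k := fun k => le_max_right _ _
  have hnum' : ∀ k, (E' k : ℝ) * √d ≤ (1 + 1 / ((k : ℝ) + 1)) * (√n * (k0 k : ℝ)) := by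
    intro k
    have h1 := hnum k
    rw [hk0 k] at h1
    push_cast at h1
    rw [add_sub_cancel_right] at h1
    rw [hE']
    rcases le_total (E k) 1 with h2 | h2
    · simp only [max_eq_right h2, Nat.cast_one, one_mul]
      have h3 : (1 : ℝ) ≤ k0 k := by exact_mod_cast hk1 k
      have h4 : (0 : ℝ) ≤ 1 / ((k : ℝ) + 1) := by positivity
      have h5 : √(n : ℝ) ≤ √n * k0 k := le_mul_of_one_le_right hqn.le h3
      have h6 : (0 : ℝ) ≤ 1 / ((k : ℝ) + 1) * (√n * k0 k) := by positivity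
      linarith
    · simp only [max_eq_left h2]
      exact h1
  have hsep' : ∀ k (w : Fin n → Fin (3 + 1) → ℂ), eval (fun p => w p.1 p.2) (H k) ≠ 0 →
      Sep (Ideal.span {F}) ℓ (E' k) (k0 k + 1) w := by
    intro k w hw
    have h1 := hH k w hw
    rw [hk0 k] at h1
    exact Sep.raise hℓ h1 (le_max_left _ _)
  have hfin : ∀ (w : Fin n → Fin (3 + 1) → ℂ) (m : Fin n → ℕ) q,
      Module.Finite ℂ (MvPolynomial (Fin (3 + 1)) ℂ ⧸ fatI F ℓ (w q) (m q)) := fun w m q =>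
    finite_quot_of_le (w q) (m q) _ le_sup_right
  have hPK : ∀ (w : Fin n → Fin (3 + 1) → ℂ) (m : Fin n → ℕ) q,
      Ideal.span {F} ≤ fatI F ℓ (w q) (m q) := fun w m q => le_sup_left.trans le_sup_left
  refine ⟨H, fun k => ⟨w0 k, fun q => ⟨hw01 k q, hw0I k q F
    (Ideal.mem_span_singleton_self _)⟩, hH0 k⟩, ?_, ?_⟩
  · intro e m hem
    -- choice of `k`
    obtain ⟨k, hk⟩ : ∃ k : ℕ, (1 + 1 / ((k : ℝ) + 1)) * √(n * d) * e < ∑ q, (m q : ℝ) := by
      have h1 : Tendsto (fun k : ℕ => (1 + 1 / ((k : ℝ) + 1)) * √(n * d) * e)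
          atTop (𝓝 ((1 + 0) * √(n * d) * e)) :=
        ((tendsto_const_nhds.add tendsto_one_div_add_atTop_nhds_zero_nat).mul_const _).mul_const _
      rw [add_zero, one_mul] at h1
      exact (h1.eventually_lt_const hem).exists
    refine ⟨k, fun w hw hHw => ?_⟩
    have hwℓ := fun q => (hw q).1
    have hwF := fun q => (hw q).2
    have hbot : ser (Ideal.span {F}) (fun q => fatI F ℓ (w q) (m q)) e = ⊥ := by
      rw [eq_bot_iff]
      rintro x ⟨G, ⟨hG1, hG2⟩, rfl⟩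
      rw [Submodule.mem_bot]
      by_contra hx
      have hGP : G ∉ Ideal.span {F} := fun h => hx (Ideal.Quotient.eq_zero_iff_mem.2 h)
      have hG2' : ∀ q, G ∈ fatI F ℓ (w q) (m q) := fun q => (Submodule.mem_iInf _).1 hG2 q
      have h1 := mult_le hF hirr hsm hℓ hwℓ hwF (hE1 k) (hsep' k w hHw) (hk1 k)
        ((mem_homogeneousSubmodule _ _).1 hG1) hGP hG2'
      have h2 : (k0 k : ℝ) * ∑ q, (m q : ℝ) ≤ d * e * E' k := by exact_mod_cast h1
      have hk2 : (0 : ℝ) < k0 k := by exact_mod_cast hk1 k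
      have h3 : (d : ℝ) * e * E' k ≤ (k0 k : ℝ) * ((1 + 1 / ((k : ℝ) + 1)) * √(n * d) * e) := by
        have h4 : (d : ℝ) = √d * √d := (Real.mul_self_sqrt hd0.le).symm
        have h5 : √((n : ℝ) * d) = √n * √d := Real.sqrt_mul hn0.le _
        calc (d : ℝ) * e * E' k = (√d * e) * (E' k * √d) := by
              conv_lhs => rw [h4]
              ring
          _ ≤ (√d * e) * ((1 + 1 / ((k : ℝ) + 1)) * (√n * (k0 k : ℝ))) :=
              mul_le_mul_of_nonneg_left (hnum' k) (by positivity)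
          _ = _ := by rw [h5]; ring
      have h4 := mul_lt_mul_of_pos_left hk hk2
      linarith
    refine ⟨hbot, ?_⟩
    have h1 := hilb_le (Ideal.span {F}) (fun q => fatI F ℓ (w q) (m q)) (hPK w m) (hfin w m) e
    rw [hbot, finrank_bot] at h1 ⊢
    simp only [len_eq hF hsm hℓ (hwℓ _) (hwF _)] at h1
    rw [hilb_sub hF hF0]
    omega
  · intro ε hε
    obtain ⟨k, hk⟩ := exists_nat_one_div_lt hε
    refine ⟨k, √d * E' k, fun w hw hHw s' e m hms hse => ?_⟩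
    have hwℓ := fun q => (hw q).1
    have hwF := fun q => (hw q).2
    have hk2 : (0 : ℝ) < k0 k := by exact_mod_cast hk1 k
    set a : ℕ := s' / k0 k + 1 with ha
    have ha1 : 1 ≤ a := Nat.le_add_left 1 _
    have ha2 : s' ≤ a * k0 k + 1 := by
      have h1 := Nat.lt_div_mul_add (a := s') (hk1 k)
      have h2 : a * k0 k = s' / k0 k * k0 k + k0 k := by rw [ha]; ring
      omega
    have ha3 : (a : ℝ) ≤ s' / k0 k + 1 := by
      rw [ha]
      push_cast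
      have : ((s' / k0 k : ℕ) : ℝ) ≤ (s' : ℝ) / k0 k := Nat.cast_div_le
      linarith
    have ha4 : a * E' k ≤ e := by
      have h1 : (a : ℝ) * E' k * √d ≤ √d * e := by
        calc (a : ℝ) * E' k * √d = a * (E' k * √d) := by ring
          _ ≤ (s' / k0 k + 1) * (E' k * √d) := mul_le_mul_of_nonneg_right ha3 (by positivity)
          _ = s' / k0 k * (E' k * √d) + √d * E' k := by ring
          _ ≤ s' / k0 k * ((1 + 1 / ((k : ℝ) + 1)) * (√n * (k0 k : ℝ))) + √d * E' k :=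
              add_le_add (mul_le_mul_of_nonneg_left (hnum' k) (by positivity)) le_rfl
          _ = (1 + 1 / ((k : ℝ) + 1)) * √n * s' + √d * E' k := by
              field_simp
          _ ≤ (1 + ε) * √n * s' + √d * E' k := by
              gcongr
          _ ≤ √d * e := hse
      have h2 : ((a : ℝ) * E' k) ≤ e := by
        rw [mul_comm (√(d : ℝ))] at h1
        exact le_of_mul_le_mul_right h1 hqd
      exact_mod_cast h2
    have hsepe : Sep (Ideal.span {F}) ℓ e s' w :=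
      Sep.anti (Sep.raise hℓ (Sep.nsmul (hsep' k w hHw) ha1) ha4) ha2
    have h1 := finrank_ser_of_sep hsepe (fun q => fatI F ℓ (w q) (m q)) (hfin w m)
      (fun q => sup_pow_anti (hms q))
    simp only [len_eq hF hsm hℓ (hwℓ _) (hwF _)] at h1
    rw [hilb_sub hF hF0, ← h1, Nat.add_sub_cancel_left]

end

end Pool.Agent.TH749.FS
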