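import Pool.Agent.W607.OpenSep

/-!
Products of forms separating jets: if forms of degree `E1` separate jets of order `k1 + 1` and
forms of degree `E2` separate jets of order `k2 + 1`, then forms of degree `E1 + E2` separate
jets of order `k1 + k2 + 1`.
-/

set_option autoImplicit false

namespace Pool.Agent.TH749.FS

open MvPolynomial Pool.Agent.W607

section prod
variable {R : Type*} [CommRing R]

theorem mul_mem_sup {J M : Ideal R} {a b : ℕ} {x y : R} (hx : x ∈ J ⊔ M ^ a)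
    (hy : y ∈ J ⊔ M ^ b) : x * y ∈ J ⊔ M ^ (a + b) := by
  obtain ⟨x1, hx1, x2, hx2, rfl⟩ := Submodule.mem_sup.1 hx
  obtain ⟨y1, hy1, y2, hy2, rfl⟩ := Submodule.mem_sup.1 hy
  have h1 : (x1 + x2) * (y1 + y2) = (x1 * (y1 + y2) + x2 * y1) + x2 * y2 := by ring
  rw [h1]
  refine Submodule.add_mem_sup (add_mem (Ideal.mul_mem_right _ _ hx1)
    (Ideal.mul_mem_left _ _ hy1)) ?_
  rw [pow_add]
  exact Ideal.mul_mem_mul hx2 hy2

theorem sup_pow_anti {J M : Ideal R} {a b : ℕ} (h : a ≤ b) : J ⊔ M ^ b ≤ J ⊔ M ^ a :=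
  sup_le_sup le_rfl (Ideal.pow_le_pow_right h)

theorem mem_sup_pow_of_mem {J M : Ideal R} {a b : ℕ} {x : R} (hx : x ∈ M ^ b) (h : a ≤ b) :
    x ∈ J ⊔ M ^ a :=
  sup_pow_anti h (Ideal.mem_sup_right hx)

end prod

variable {N n : ℕ} {I : Ideal (MvPolynomial (Fin (N + 1)) ℂ)}
  {ℓ : MvPolynomial (Fin (N + 1)) ℂ}

theorem Sep.anti {E s s' : ℕ} {w : Fin n → Fin (N + 1) → ℂ} (h : Sep I ℓ E s w) (hs : s' ≤ s) :
    Sep I ℓ E s' w := by
  intro q f
  obtain ⟨F, hF, h1, h2⟩ := h q f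
  exact ⟨F, hF, sup_pow_anti hs h1, fun q' hq' => sup_pow_anti hs (h2 q' hq')⟩

theorem Sep.raise {E s : ℕ} {w : Fin n → Fin (N + 1) → ℂ} (hℓ : ℓ.IsHomogeneous 1)
    (h : Sep I ℓ E s w) {E' : ℕ} (hE : E ≤ E') : Sep I ℓ E' s w := by
  intro q f
  obtain ⟨F, hF, h1, h2⟩ := h q f
  refine ⟨ℓ ^ (E' - E) * F, ?_, ?_, fun q' hq' => Ideal.mul_mem_left _ _ (h2 q' hq')⟩
  · have h3 := (hℓ.pow (E' - E)).mul hF
    have h4 : 1 * (E' - E) + E = E' := by omega
    rwa [h4] at h3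
  · have h3 : ℓ ^ (E' - E) * F - f = (ℓ ^ (E' - E) - 1) * F + (F - f) := by ring
    rw [h3]
    refine add_mem (Ideal.mem_sup_left (Ideal.mem_sup_right ?_)) h1
    rw [Ideal.mem_span_singleton]
    exact Dvd.dvd.mul_right (sub_one_dvd_pow_sub_one ℓ _) F

theorem Sep.mul {E1 E2 k1 k2 : ℕ} {w : Fin n → Fin (N + 1) → ℂ}
    (h1 : Sep I ℓ E1 (k1 + 1) w) (h2 : Sep I ℓ E2 (k2 + 1) w) :
    Sep I ℓ (E1 + E2) (k1 + k2 + 1) w := by
  set J : Ideal (MvPolynomial (Fin (N + 1)) ℂ) := I ⊔ Ideal.span {ℓ - 1} with hJ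
  have key : ∀ q (t : ℕ), t ≤ k1 + k2 + 1 → ∀ f ∈ (mw (w q)) ^ (k1 + k2 + 1 - t),
      ∃ F : MvPolynomial (Fin (N + 1)) ℂ, F.IsHomogeneous (E1 + E2) ∧
        F - f ∈ J ⊔ (mw (w q)) ^ (k1 + k2 + 1) ∧
        ∀ q', q' ≠ q → F ∈ J ⊔ (mw (w q')) ^ (k1 + k2 + 1) := by
    intro q t
    induction t with
    | zero =>
      intro _ f hf
      refine ⟨0, isHomogeneous_zero _ _ _, ?_, fun _ _ => zero_mem _⟩
      rw [zero_sub]
      exact neg_mem (Ideal.mem_sup_right hf)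
    | succ t ih =>
      intro ht f hf
      set j := k1 + k2 + 1 - (t + 1) with hj
      have hj1 : k1 + k2 + 1 - t = j + 1 := by omega
      have ih' := ih (by omega)
      rw [hj1] at ih'
      obtain ⟨i1, i2, hi, hi1, hi2⟩ : ∃ i1 i2, i1 + i2 = j ∧ i1 ≤ k1 ∧ i2 ≤ k2 :=
        ⟨min j k1, j - min j k1, by omega, by omega, by omega⟩
      rw [← hi, pow_add] at hf
      refine Submodule.mul_induction_on hf ?_ ?_
      · intro g1 hg1 g2 hg2
        obtain ⟨F1, hF1, hF1q, hF1'⟩ := h1 q g1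
        obtain ⟨F2, hF2, hF2q, hF2'⟩ := h2 q g2
        have h3 : F1 * F2 - g1 * g2 ∈ J ⊔ (mw (w q)) ^ (j + 1) := by
          have h4 : F1 * F2 - g1 * g2 = (F1 - g1) * (F2 - g2) + g1 * (F2 - g2) +
            (F1 - g1) * g2 := by ring
          rw [h4]
          have g1' : g1 ∈ J ⊔ (mw (w q)) ^ i1 := Ideal.mem_sup_right hg1
          have g2' : g2 ∈ J ⊔ (mw (w q)) ^ i2 := Ideal.mem_sup_right hg2
          refine add_mem (add_mem ?_ ?_) ?_
          · exact sup_pow_anti (by omega) (mul_mem_sup hF1q hF2q)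
          · exact sup_pow_anti (by omega) (mul_mem_sup g1' hF2q)
          · exact sup_pow_anti (by omega) (mul_mem_sup hF1q g2')
        obtain ⟨y, hy, z, hz, hyz⟩ := Submodule.mem_sup.1 h3
        obtain ⟨F', hF', hF'q, hF''⟩ := ih' z hz
        refine ⟨F1 * F2 - F', (hF1.mul hF2).sub hF', ?_, fun q' hq' => ?_⟩
        · have h5 : F1 * F2 - F' - g1 * g2 = y - (F' - z) := by
            linear_combination -hyz
          rw [h5]
          exact sub_mem (Ideal.mem_sup_left hy) hF'q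
        · refine sub_mem ?_ (hF'' q' hq')
          exact sup_pow_anti (by omega) (mul_mem_sup (hF1' q' hq') (hF2' q' hq'))
      · rintro x y ⟨F, hF, hFq, hF'⟩ ⟨G, hG, hGq, hG'⟩
        refine ⟨F + G, hF.add hG, ?_, fun q' hq' => add_mem (hF' q' hq') (hG' q' hq')⟩
        have : F + G - (x + y) = (F - x) + (G - y) := by ring
        rw [this]
        exact add_mem hFq hGq
  intro q f
  refine key q (k1 + k2 + 1) le_rfl f ?_
  rw [Nat.sub_self, pow_zero, Ideal.one_eq_top]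
  exact Submodule.mem_top

theorem Sep.nsmul {E k : ℕ} {w : Fin n → Fin (N + 1) → ℂ}
    (h : Sep I ℓ E (k + 1) w) {a : ℕ} (ha : 1 ≤ a) :
    Sep I ℓ (a * E) (a * k + 1) w := by
  induction a with
  | zero => omega
  | succ a ih =>
    rcases Nat.eq_zero_or_pos a with h0 | h0
    · subst h0
      simpa using h
    · have h1 := Sep.mul (ih h0) h
      have h2 : a * E + E = (a + 1) * E := by ring
      have h3 : a * k + k + 1 = (a + 1) * k + 1 := by ring
      rwa [h2, h3] at h1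

end Pool.Agent.TH749.FS
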