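import Pool.Agent.TH836.NS.SepNodal
import Pool.Agent.TH508.NS.Node
import Pool.Agent.TH749.FS.Hilb
import Pool.Agent.TH749.FS.Local3

/-!
Separation of jets at `n ≥ d` points of a smooth surface of degree `d` in `P³` with an integral
nodal plane section.
-/

set_option autoImplicit false

namespace Pool.Agent.TH749.FS

open MvPolynomial Pool.Agent.W607 Pool.Agent.W601.Curve Filter Topology

theorem hmg_sup {N : ℕ} {I J : Ideal (MvPolynomial (Fin (N + 1)) ℂ)} (hI : Hmg I) (hJ : Hmg J) :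
    Hmg (I ⊔ J) := by
  intro f hf t
  obtain ⟨a, ha, b, hb, rfl⟩ := Submodule.mem_sup.1 hf
  rw [map_add]
  exact Submodule.add_mem_sup (hI a ha t) (hJ b hb t)

theorem sepX_nodal {d n : ℕ} {F : MvPolynomial (Fin (3 + 1)) ℂ} (hd : 2 ≤ d) (hdn : d ≤ n)
    (hF : F.IsHomogeneous d) (hirr : Irreducible F)
    (hsm : ∀ x : Fin (3 + 1) → ℂ, x ≠ 0 → eval x F = 0 → ∃ i, eval x (pderiv i F) ≠ 0)
    {h ℓ : MvPolynomial (Fin (3 + 1)) ℂ} {w : Fin (3 + 1) → ℂ} (hh : h.IsHomogeneous 1)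
    (hh0 : h ≠ 0) (hℓ : ℓ.IsHomogeneous 1) (hwℓ : eval w ℓ = 1) (hwF : eval w F = 0)
    (hP : (Ideal.span {F} ⊔ Ideal.span {h}).IsPrime)
    (hnode : ∃ α β : MvPolynomial (Fin (3 + 1)) ℂ, α.IsHomogeneous 1 ∧ β.IsHomogeneous 1 ∧
      eval w α = 0 ∧ eval w β = 0 ∧
      (∀ a b : ℂ, C a * α + C b * β ∈ Ideal.span {F} ⊔ Ideal.span {ℓ - 1} ⊔ (mw w) ^ 2 →
        a = 0 ∧ b = 0) ∧
      h - α * β ∈ Ideal.span {F} ⊔ Ideal.span {ℓ - 1} ⊔ (mw w) ^ 3)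
    {ε : ℝ} (hε : 0 < ε) :
    ∃ E s : ℕ, 2 ≤ s ∧
      (E : ℝ) * √d ≤ (1 + ε) * (√n * ((s : ℝ) - 1)) ∧
      ∃ w : Fin n → Fin (3 + 1) → ℂ,
      (∀ q, eval (w q) ℓ = 1) ∧ (∀ q, ∀ f ∈ Ideal.span {F}, eval (w q) f = 0) ∧
        Sep (Ideal.span {F}) ℓ E s w := by
  have hF0 : F ≠ 0 := hirr.ne_zero
  have hI : (Ideal.span {F}).IsPrime := (Ideal.span_singleton_prime hF0).2 hirr.prime
  have hIh : Hmg (Ideal.span {F}) := hmg_span hF
  have hδ : (0 : ℝ) < d := by exact_mod_cast (by omega : 0 < d)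
  have hgr := hilb_growth hF hF0
  have hw0 : w ≠ 0 := by
    intro h0
    obtain ⟨a, ha⟩ := exists_lin ℓ hℓ
    rw [h0, ha, map_sum] at hwℓ
    simp at hwℓ
  have hwI : ∀ f ∈ Ideal.span {F}, eval w f = 0 := by
    intro f hf
    obtain ⟨g, rfl⟩ := Ideal.mem_span_singleton'.1 hf
    rw [map_mul, hwF, mul_zero]
  have hsm4 := finrank_cone hwF (hsm w hw0 hwF)
  obtain ⟨x, hx, hxw⟩ := Pool.Agent.TH508.NS.exists_formalNode hI hIh hδ hgr hℓ hwI hwℓ hsm4 hnode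
  have hhI : h ∉ Ideal.span {F} := by
    intro hmem
    rw [Ideal.mem_span_singleton] at hmem
    obtain ⟨g, hg⟩ := hmem
    have hg0 : g ≠ 0 := by
      rintro rfl
      exact hh0 (by rw [hg, mul_zero])
    have h1 := hh.totalDegree hh0
    rw [hg, totalDegree_mul_of_isDomain hF0 hg0, hF.totalDegree hF0] at h1
    omega
  have hsm4' : Module.finrank ℂ (MvPolynomial (Fin (3 + 1)) ℂ ⧸
      (Ideal.span {F} ⊔ (mw fun i => Pool.Agent.TH836.NS.cc (x i) 0 0) ^ 2)) = 4 := by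
    have h2 : (fun i => Pool.Agent.TH836.NS.cc (x i) 0 0) = w := funext hxw
    rw [h2]
    exact hsm4
  have hd1 : (1 : ℝ) ≤ ((1 : ℕ) : ℝ) ^ 2 * d := by
    rw [Nat.cast_one, one_pow, one_mul]
    exact_mod_cast (by omega : 1 ≤ d)
  have hdn1 : ((1 : ℕ) : ℝ) ^ 2 * d ≤ n := by
    rw [Nat.cast_one, one_pow, one_mul]
    exact_mod_cast hdn
  exact Pool.Agent.TH836.NS.sep_nodal (Ideal.span {F}) (Ideal.span {F} ⊔ Ideal.span {h}) hI hIh hδ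
    hgr le_rfl hℓ hh hhI hP (hmg_sup hIh (hmg_span hh)) ⟨0, fun t _ f _ => Iff.rfl⟩ hx hsm4' hd1
    hdn1 hε

end Pool.Agent.TH749.FS
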