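import Pool.Agent.TH749.FS.Main
import Pool.Agent.TH552.NB.Ends
import Pool.Agent.TH880.NB.AsmT

/-!
Separation of jets at `n ≥ 4 d` points of an integral surface of degree `d` in `P³`.
-/

set_option autoImplicit false

namespace Pool.Agent.TH749.FS

open MvPolynomial Pool.Agent.W607 Filter Topology

theorem sepX_all {d n : ℕ} {F : MvPolynomial (Fin (3 + 1)) ℂ} (hd : 1 ≤ d) (h4 : 4 * d ≤ n)
    (h9 : d = 1 → 9 ≤ n) (hF : F.IsHomogeneous d) (hirr : Irreducible F) :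
    ∃ ℓ : MvPolynomial (Fin (3 + 1)) ℂ, ℓ.IsHomogeneous 1 ∧ ∀ ε : ℝ, 0 < ε →
    ∃ E s : ℕ, 2 ≤ s ∧
      (E : ℝ) * √d ≤ (1 + ε) * (√n * ((s : ℝ) - 1)) ∧
      ∃ w : Fin n → Fin (3 + 1) → ℂ,
      (∀ q, eval (w q) ℓ = 1) ∧ (∀ q, ∀ f ∈ Ideal.span {F}, eval (w q) f = 0) ∧
        Sep (Ideal.span {F}) ℓ E s w := by
  have hF0 : F ≠ 0 := hirr.ne_zero
  have hI : (Ideal.span {F}).IsPrime := (Ideal.span_singleton_prime hF0).2 hirr.prime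
  have hδ : (0 : ℝ) < d := by exact_mod_cast (by omega : 0 < d)
  obtain ⟨r, ℓ, hr, hrδ, hℓ, hsepX⟩ := Pool.Agent.TH880.NB.sepXT (Ideal.span {F}) hI (hmg_span hF)
    (d : ℝ) hδ (hilb_growth hF hF0)
  have hrd : r = d := by exact_mod_cast hrδ
  subst hrd
  exact ⟨ℓ, hℓ, fun ε hε => hsepX n ε (Pool.Agent.TH552.NB.Tor_all hd h4 h9 ε hε)⟩

end Pool.Agent.TH749.FS
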