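import Pool.Agent.TH749.FS.SepAll
import Pool.Agent.TH749.FS.Nodal

set_option autoImplicit false

/-!
# Series of fat points on smooth surfaces in `P³`: emptiness below and independence above

Let `S ⊂ P³` be a smooth surface of degree `d` over `ℂ` and let `n ≥ 4 d` (`n ≥ 9` if `d = 1`),
or let `S` have an integral plane section with a node and `n ≥ d`.  For `n` general points of `S`
the series `L_e(m_1, …, m_n)` is empty, and nonspecial, if `∑ m_i > √(n d) e`, and it is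
nonspecial if `√d e ≥ (1 + ε) √n max m_i + c`, where `c` depends only on `S`, `n` and `ε > 0`.
-/

namespace Pool.Agent.TH749.FS.TwoRanges

open MvPolynomial Filter Topology

/-- The homogeneous coordinate ring `ℂ[x_0, …, x_3]` of `P³`. -/
abbrev Coord := MvPolynomial (Fin (3 + 1)) ℂ

/-- `F` is the equation of a smooth integral surface `S ⊂ P³` of degree `d`. -/
structure IsSmoothSurface (F : Coord) (d : ℕ) : Prop where
  homogeneous : F.IsHomogeneous d
  irreducible : Irreducible F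
  smooth : ∀ x : Fin (3 + 1) → ℂ, x ≠ 0 → eval x F = 0 → ∃ i, eval x (pderiv i F) ≠ 0

/-- The maximal ideal of the point `w` of `ℂ⁴`. -/
noncomputable def pointIdeal (w : Fin (3 + 1) → ℂ) : Ideal Coord :=
  Ideal.span (Set.range fun i => X i - C (w i))

/-- The functions on `ℂ⁴` whose restriction to the affine surface `F = 0`, `ℓ = 1` (the part
`ℓ ≠ 0` of `S`) vanishes to order at least `m` at its point `w`. -/
noncomputable def fatIdeal (F ℓ : Coord) (w : Fin (3 + 1) → ℂ) (m : ℕ) : Ideal Coord :=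
  Ideal.span {F} ⊔ Ideal.span {ℓ - 1} ⊔ (pointIdeal w) ^ m

/-- The curve `h = 0` on `S` has a node at the point `w` of `S`, `ℓ(w) = 1`: modulo the cube of
the maximal ideal of the point of `S`, `h` is the product of two linear forms whose differentials
at the point are linearly independent (two distinct tangent lines). -/
def IsNode (F ℓ h : Coord) (w : Fin (3 + 1) → ℂ) : Prop :=
  ∃ α β : Coord, α.IsHomogeneous 1 ∧ β.IsHomogeneous 1 ∧ eval w α = 0 ∧ eval w β = 0 ∧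
    (∀ a b : ℂ, C a * α + C b * β ∈ fatIdeal F ℓ w 2 → a = 0 ∧ b = 0) ∧
    h - α * β ∈ fatIdeal F ℓ w 3

/-- Some plane section of `S` is an integral curve with a node. -/
def HasNodalPlaneSection (F : Coord) : Prop :=
  ∃ (h ℓ : Coord) (w : Fin (3 + 1) → ℂ), h.IsHomogeneous 1 ∧ h ≠ 0 ∧
    (Ideal.span {F} ⊔ Ideal.span {h}).IsPrime ∧
    ℓ.IsHomogeneous 1 ∧ eval w ℓ = 1 ∧ eval w F = 0 ∧ IsNode F ℓ h w

/-- `w` lists representatives, in the affine chart `ℓ = 1`, of `n` points of `S`. -/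
def IsChartTuple {n : ℕ} (F ℓ : Coord) (w : Fin n → Fin (3 + 1) → ℂ) : Prop :=
  ∀ q, eval (w q) ℓ = 1 ∧ eval (w q) F = 0

/-- The series `L_e(m_1, …, m_n)` as a vector space: the sections of `O_S(e)`, that is the
elements of degree `e` of `ℂ[x_0, …, x_3]/(F)`, which vanish to order at least `m_q` at the point
`w_q` for all `q`. -/
noncomputable def series {n : ℕ} (F ℓ : Coord) (w : Fin n → Fin (3 + 1) → ℂ) (m : Fin n → ℕ)
    (e : ℕ) : Submodule ℂ (Coord ⧸ Ideal.span {F}) :=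
  (homogeneousSubmodule (Fin (3 + 1)) ℂ e ⊓
    ⨅ q, (fatIdeal F ℓ (w q) (m q)).restrictScalars ℂ).map
      (Ideal.Quotient.mkₐ ℂ (Ideal.span {F})).toLinearMap

/-- The series is nonspecial: its dimension as a vector space (one more than the projective
dimension) is `max (0, h⁰(O_S(e)) - ∑ m_q (m_q + 1) / 2)`, where
`h⁰(O_S(e)) = (e + 3 choose 3) - (e - d + 3 choose 3)`; the subtractions are those of `ℕ`. -/
def IsNonspecial {n : ℕ} (d : ℕ) (F ℓ : Coord) (w : Fin n → Fin (3 + 1) → ℂ) (m : Fin n → ℕ)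
    (e : ℕ) : Prop :=
  Module.finrank ℂ (series F ℓ w m e) =
    ((e + 3).choose 3 - (e + 3 - d).choose 3) - ∑ q, (m q + 1).choose 2

/-- **Series of fat points on a smooth surface of degree `d` in `P³`, outside an asymptotically
thin window.** Each `H k ≠ 0` is a nonempty open condition on `n`-tuples of points of `S` with
`ℓ ≠ 0`. The series is empty and nonspecial at general points if `√(n d) e < ∑ m_q`, and nonspecial
at general points if `√d e ≥ (1 + ε) √n s + c` for some `s ≥ max m_q`. -/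
theorem result (d n : ℕ) (hd : 1 ≤ d) (F : Coord) (hS : IsSmoothSurface F d)
    (hn : (4 * d ≤ n ∧ (d = 1 → 9 ≤ n)) ∨ (2 ≤ d ∧ d ≤ n ∧ HasNodalPlaneSection F)) :
    ∃ (ℓ : Coord) (H : ℕ → MvPolynomial (Fin n × Fin (3 + 1)) ℂ), ℓ.IsHomogeneous 1 ∧
      (∀ k, ∃ w : Fin n → Fin (3 + 1) → ℂ, IsChartTuple F ℓ w ∧
        eval (fun p => w p.1 p.2) (H k) ≠ 0) ∧
      (∀ (e : ℕ) (m : Fin n → ℕ), √(n * d) * e < ∑ q, (m q : ℝ) →
        ∃ k, ∀ w : Fin n → Fin (3 + 1) → ℂ, IsChartTuple F ℓ w →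
          eval (fun p => w p.1 p.2) (H k) ≠ 0 →
          series F ℓ w m e = ⊥ ∧ IsNonspecial d F ℓ w m e) ∧
      (∀ ε : ℝ, 0 < ε → ∃ (k : ℕ) (c : ℝ), ∀ w : Fin n → Fin (3 + 1) → ℂ, IsChartTuple F ℓ w →
          eval (fun p => w p.1 p.2) (H k) ≠ 0 →
          ∀ (s e : ℕ) (m : Fin n → ℕ), (∀ q, m q ≤ s) → (1 + ε) * √n * s + c ≤ √d * e →
            IsNonspecial d F ℓ w m e) := by
  have hdn : d ≤ n := by
    rcases hn with ⟨h, -⟩ | ⟨-, h, -⟩ <;> omega
  obtain ⟨ℓ, hℓ, hsep⟩ : ∃ ℓ : Coord, ℓ.IsHomogeneous 1 ∧ ∀ ε : ℝ, 0 < ε →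
    ∃ E s : ℕ, 2 ≤ s ∧
      (E : ℝ) * √d ≤ (1 + ε) * (√n * ((s : ℝ) - 1)) ∧
      ∃ w : Fin n → Fin (3 + 1) → ℂ,
      (∀ q, eval (w q) ℓ = 1) ∧ (∀ q, ∀ f ∈ Ideal.span {F}, eval (w q) f = 0) ∧
        Pool.Agent.W607.Sep (Ideal.span {F}) ℓ E s w := by
    rcases hn with ⟨h4, h9⟩ | ⟨h2, h3, h, ℓ, w, hh, hh0, hP, hℓ, hwℓ, hwF, hnode⟩
    · exact Pool.Agent.TH749.FS.sepX_all hd h4 h9 hS.homogeneous hS.irreducible
    · exact ⟨ℓ, hℓ, fun ε hε => Pool.Agent.TH749.FS.sepX_nodal h2 h3 hS.homogeneous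
        hS.irreducible hS.smooth hh hh0 hℓ hwℓ hwF hP hnode hε⟩
  obtain ⟨H, h1, h2, h3⟩ := Pool.Agent.TH749.FS.two_ranges hd hdn hS.homogeneous hS.irreducible
    hS.smooth hℓ hsep
  exact ⟨ℓ, H, hℓ, h1, h2, h3⟩

end Pool.Agent.TH749.FS.TwoRanges
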